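import Mathlib
import Pool.Agent.H422.SK.Full

set_option autoImplicit false

/-!
Bounds for heights which are uniform over all number fields `L ⊇ K` of bounded degree.
-/

namespace Pool.Agent.H422.RS

open MvPolynomial Height NumberField Height.AdmissibleAbsValues

variable {K : Type} [Field K] [NumberField K]

lemma common_den (s : Finset K) : ∃ N : ℕ, N ≠ 0 ∧ ∀ a ∈ s, IsIntegral ℤ ((N : K) * a) := by
  classical
  induction s using Finset.induction_on with
  | empty => exact ⟨1, one_ne_zero, by simp⟩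
  | insert a s _ ih =>
    obtain ⟨N, hN, h⟩ := ih
    obtain ⟨n, hn, _, h'⟩ := exists_nat_le_mulHeight₁ a
    refine ⟨N * n, mul_ne_zero hN hn, fun b hb => ?_⟩
    rcases Finset.mem_insert.1 hb with rfl | hb
    · have h1 : ((N * n : ℕ) : K) * b = N * (n * b) := by push_cast; ring
      rw [h1]
      exact (isIntegral_natCast N).mul h'
    · have h1 : ((N * n : ℕ) : K) * b = n * (N * b) := by push_cast; ring
      rw [h1]
      exact (isIntegral_natCast n).mul (h b hb)

lemma fin_le {L : Type} [Field L] [NumberField L] (v : FinitePlace L) {N : ℕ} (hN : N ≠ 0) {a : L}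
    (h : IsIntegral ℤ ((N : L) * a)) : v a ≤ (v (N : L))⁻¹ := by
  have h1 : v ((N : L) * a) ≤ 1 := by
    have h2 := FinitePlace.norm_le_one L v.maximalIdeal ⟨(N : L) * a, h⟩
    rw [FinitePlace.norm_embedding_eq] at h2
    exact h2
  rw [map_mul] at h1
  have h3 : 0 < v (N : L) := by
    rw [FinitePlace.pos_iff]
    exact_mod_cast hN
  rw [← one_div, le_div_iff₀ h3, mul_comm]
  exact h1

lemma arch_le {L : Type} [Field L] [NumberField L] {A : ℝ} (f : AbsoluteValue L ℝ → ℝ)
    (h0 : ∀ v : InfinitePlace L, 0 ≤ f v.val) (h : ∀ v : InfinitePlace L, f v.val ≤ A) :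
    (archAbsVal.map f).prod ≤ A ^ Module.finrank ℚ L := by
  rw [prod_archAbsVal_eq, ← InfinitePlace.sum_mult_eq, ← Finset.prod_pow_eq_pow_sum]
  exact Finset.prod_le_prod (fun v _ => pow_nonneg (h0 v) _) fun v _ => pow_le_pow_left₀ (h0 v) (h v) _

lemma inf_nat {L : Type} [Field L] [NumberField L] (v : InfinitePlace L) (N : ℕ) : v (N : L) = N := by
  rw [← InfinitePlace.norm_embedding_eq, map_natCast]
  simp

lemma prod_nat {L : Type} [Field L] [NumberField L] {N : ℕ} (hN : N ≠ 0) :
    ∏ᶠ v : FinitePlace L, (v (N : L))⁻¹ = (N : ℝ) ^ Module.finrank ℚ L := by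
  have h1 := prod_abs_eq_one (K := L) (x := (N : L)) (by exact_mod_cast hN)
  have h2 : ∏ w : InfinitePlace L, w (N : L) ^ w.mult = (N : ℝ) ^ Module.finrank ℚ L := by
    rw [← InfinitePlace.sum_mult_eq, ← Finset.prod_pow_eq_pow_sum]
    exact Finset.prod_congr rfl fun v _ => by rw [inf_nat]
  rw [finprod_inv_distrib]
  rw [h2] at h1
  exact (eq_inv_of_mul_eq_one_left h1).symm

lemma nonarch_le {L : Type} [Field L] [NumberField L] {N : ℕ} (hN : N ≠ 0)
    (f : AbsoluteValue L ℝ → ℝ) (h0 : ∀ v : FinitePlace L, 1 ≤ f v.val)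
    (h : ∀ v : FinitePlace L, f v.val ≤ (v (N : L))⁻¹) :
    ∏ᶠ v : nonarchAbsVal, f v.val ≤ (N : ℝ) ^ Module.finrank ℚ L := by
  rw [prod_nonarchAbsVal_eq, ← prod_nat hN]
  have h1 : (fun v : FinitePlace L => v (N : L)).HasFiniteMulSupport :=
    FinitePlace.hasFiniteMulSupport (by exact_mod_cast hN)
  refine finprod_le_finprod ?_ (fun v => zero_le_one.trans (h0 v)) h1.inv h
  refine Set.Finite.subset h1 fun v hv => ?_
  rw [Function.mem_mulSupport] at hv ⊢
  intro hv1
  apply hv
  have h2 := h v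
  rw [hv1, inv_one] at h2
  exact le_antisymm h2 (h0 v)

theorem unif {ι ι' : Type} [Finite ι] [Fintype ι'] [Nonempty ι'] (p : ι' → MvPolynomial ι K) (E : ℕ) :
    ∃ A : ℝ, 1 ≤ A ∧ ∀ (L : Type) [Field L] [NumberField L] [Algebra K L],
      Module.finrank ℚ L ≤ E → max (mulHeightBound (fun j => map (algebraMap K L) (p j))) 1 ≤ A := by
  classical
  obtain ⟨N, hN, hden⟩ := common_den (Finset.univ.biUnion fun j => (p j).support.image fun m => coeff m (p j))
  set A1 : ℝ := 1 + ∑ j, ∑ m ∈ (p j).support, ∑ ψ : K →+* ℂ, ‖ψ (coeff m (p j))‖ with hA1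
  have hA1' : 1 ≤ A1 := by
    rw [hA1]
    have : 0 ≤ ∑ j, ∑ m ∈ (p j).support, ∑ ψ : K →+* ℂ, ‖ψ (coeff m (p j))‖ := by positivity
    linarith
  have hN1 : (1 : ℝ) ≤ N := by exact_mod_cast Nat.one_le_iff_ne_zero.2 hN
  refine ⟨(A1 * N) ^ E, one_le_pow₀ (by nlinarith), fun L _ _ _ hE => ?_⟩
  refine max_le ?_ (one_le_pow₀ (by nlinarith))
  have hfin : (A1 * N) ^ Module.finrank ℚ L ≤ (A1 * N) ^ E := pow_le_pow_right₀ (by nlinarith) hE
  refine le_trans ?_ hfin
  rw [mulHeightBound_eq, mul_pow]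
  have hsup : ∀ j, (map (algebraMap K L) (p j)).support ⊆ (p j).support := fun j => support_map_subset _ _
  have ha : ∀ v : InfinitePlace L, ∀ j, ∑ m ∈ (map (algebraMap K L) (p j)).support,
      v.val (coeff m (map (algebraMap K L) (p j))) ≤ A1 := by
    intro v j
    have h1 : ∀ m ∈ (p j).support, v.val (coeff m (map (algebraMap K L) (p j))) ≤
        ∑ ψ : K →+* ℂ, ‖ψ (coeff m (p j))‖ := by
      intro m _
      rw [coeff_map]
      have h2 : v.val (algebraMap K L (coeff m (p j))) =
          ‖(v.embedding.comp (algebraMap K L)) (coeff m (p j))‖ := by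
        rw [RingHom.comp_apply, InfinitePlace.norm_embedding_eq]
        rfl
      rw [h2]
      exact Finset.single_le_sum (f := fun ψ : K →+* ℂ => ‖ψ (coeff m (p j))‖)
        (fun ψ _ => norm_nonneg _) (Finset.mem_univ _)
    calc _ ≤ ∑ m ∈ (p j).support, v.val (coeff m (map (algebraMap K L) (p j))) :=
          Finset.sum_le_sum_of_subset_of_nonneg (hsup j) fun _ _ _ => v.val.nonneg _
      _ ≤ ∑ m ∈ (p j).support, ∑ ψ : K →+* ℂ, ‖ψ (coeff m (p j))‖ := Finset.sum_le_sum h1
      _ ≤ ∑ j, ∑ m ∈ (p j).support, ∑ ψ : K →+* ℂ, ‖ψ (coeff m (p j))‖ :=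
          Finset.single_le_sum (f := fun j => ∑ m ∈ (p j).support, ∑ ψ : K →+* ℂ,
            ‖ψ (coeff m (p j))‖) (fun _ _ => by positivity) (Finset.mem_univ j)
      _ ≤ A1 := by rw [hA1]; linarith
  refine mul_le_mul (arch_le _ (fun v => ?_) fun v => ?_)
    (nonarch_le hN (fun v => ⨆ j, max (⨆ s : (map (algebraMap K L) (p j)).support,
      v (coeff s.val (map (algebraMap K L) (p j)))) 1) (fun v => ?_) fun v => ?_)
    (finprod_nonneg fun v => ?_) (by positivity)
  · exact Real.iSup_nonneg fun j => Finset.sum_nonneg fun m _ => v.val.nonneg _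
  · exact ciSup_le fun j => ha v j
  · exact (le_max_right _ _).trans (le_ciSup (f := fun j => max (⨆ s : (map (algebraMap K L) (p j)).support,
      v.val (coeff s.val (map (algebraMap K L) (p j)))) 1) (Set.finite_range _).bddAbove (Classical.arbitrary ι'))
  · refine ciSup_le fun j => max_le ?_ ?_
    · refine Real.iSup_le (fun s => ?_) (inv_nonneg.2 (apply_nonneg v _))
      rw [coeff_map]
      apply fin_le v hN
      have h3 : coeff s.val (p j) ∈ Finset.univ.biUnion fun j => (p j).support.image fun m => coeff m (p j) :=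
        Finset.mem_biUnion.2 ⟨j, Finset.mem_univ _, Finset.mem_image.2 ⟨s.val, hsup j s.2, rfl⟩⟩
      have h4 : IsIntegral ℤ (algebraMap K L ((N : K) * coeff s.val (p j))) :=
        (hden _ h3).map (algebraMap K L).toIntAlgHom
      rw [map_mul, map_natCast] at h4
      exact h4
    · have h3 : v (1 : L) ≤ (v (N : L))⁻¹ := by
        apply fin_le v hN
        rw [mul_one]
        exact isIntegral_natCast N
      rwa [map_one] at h3
  · exact Real.iSup_nonneg fun j => le_max_of_le_right zero_le_one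

/-- upper bounds -/
theorem upper {ι : Type} [Finite ι] {N : ℕ} {p : Fin 2 → MvPolynomial ι K}
    (hp : ∀ i, (p i).IsHomogeneous N) (E : ℕ) :
    ∃ A : ℝ, 0 ≤ A ∧ ∀ (L : Type) [Field L] [NumberField L] [Algebra K L],
      Module.finrank ℚ L ≤ E → ∀ x : ι → L,
        logHeight (fun j => aeval x (p j)) ≤ A + N * logHeight x := by
  obtain ⟨A, hA, h⟩ := unif p E
  refine ⟨Real.log A, Real.log_nonneg hA, fun L _ _ _ hE x => ?_⟩
  have h1 := logHeight_eval_le (p := fun j => map (algebraMap K L) (p j))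
    (fun i => (hp i).map _) x
  have h2 : (fun j => eval x (map (algebraMap K L) (p j))) = fun j => aeval x (p j) := by
    funext j
    rw [eval_map]
    rfl
  rw [h2] at h1
  refine h1.trans (add_le_add_left (Real.log_le_log (lt_of_lt_of_le one_pos (le_max_right _ _)) (h L hE)) _)

/-- lower bounds for endomorphisms -/
theorem lower {d : ℕ} {F : Fin 2 → MvPolynomial (Fin 2) K} (hF : Pool.Agent.Q170.HG.IsEndo d F) (E : ℕ) :
    ∃ A : ℝ, 0 ≤ A ∧ ∀ (L : Type) [Field L] [NumberField L] [Algebra K L],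
      Module.finrank ℚ L ≤ E → ∀ x : Fin 2 → L,
        d * logHeight x - A ≤ logHeight (fun j => aeval x (F j)) := by
  obtain ⟨M, q, hq, hc⟩ := Pool.Agent.Q170.HG.cert hF
  obtain ⟨A, hA, h⟩ := unif q E
  have h2E : (1 : ℝ) ≤ 2 ^ E := one_le_pow₀ one_le_two
  refine ⟨Real.log (2 ^ E * A), Real.log_nonneg (by nlinarith), fun L _ _ _ hE x => ?_⟩
  have h1 := logHeight_eval_ge (N := d) (q := fun a => map (algebraMap K L) (q a)) (fun a => (hq a).map _)
    (fun j => map (algebraMap K L) (F j)) (x := x) (fun k => by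
      have h3 := congrArg (aeval x) (hc k)
      simp only [map_sum, map_mul, map_pow, aeval_X] at h3
      rw [← h3]
      refine Finset.sum_congr rfl fun j _ => ?_
      rw [eval_map, eval_map]
      rfl)
  have h2 : (fun j => eval x (map (algebraMap K L) (F j))) = fun j => aeval x (F j) := by
    funext j
    rw [eval_map]
    rfl
  rw [h2] at h1
  have h4 : Real.log (Nat.card (Fin 2) ^ totalWeight L *
      max (mulHeightBound fun a => map (algebraMap K L) (q a)) 1) ≤ Real.log (2 ^ E * A) := by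
    have h5 : (1 : ℝ) ≤ max (mulHeightBound fun a => map (algebraMap K L) (q a)) 1 := le_max_right _ _
    have h6 : ((Nat.card (Fin 2) : ℕ) : ℝ) ^ totalWeight L ≤ 2 ^ E := by
      rw [Nat.card_fin, totalWeight_eq_finrank]
      exact pow_le_pow_right₀ one_le_two hE
    have h7 : 0 < ((Nat.card (Fin 2) : ℕ) : ℝ) ^ totalWeight L := by
      rw [Nat.card_fin]
      positivity
    refine Real.log_le_log (mul_pos h7 (lt_of_lt_of_le one_pos h5)) ?_
    exact mul_le_mul h6 (h L hE) (zero_le_one.trans h5) (by positivity)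
  linarith

end Pool.Agent.H422.RS
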