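import Mathlib
import Pool.Agent.H422.RS.Unif

set_option autoImplicit false

/-!
The heights of the solutions of `f^n(x) = c(x)` are bounded, and what follows for `a` with
`a p_0(x) = p_1(x)`.
-/

namespace Pool.Agent.H422.RS

open MvPolynomial Height NumberField Height.AdmissibleAbsValues

/-- values of two forms -/
noncomputable def ev {K L : Type} [Field K] [Field L] [Algebra K L] (F : Fin 2 → MvPolynomial (Fin 2) K)
    (x : Fin 2 → L) : Fin 2 → L := fun i => aeval x (F i)

/-- the same point of `P^1` -/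
def Same {L : Type} [Field L] (u v : Fin 2 → L) : Prop := u 0 * v 1 = u 1 * v 0

lemma same_smul {L : Type} [Field L] {u v : Fin 2 → L} (hu : u ≠ 0) (hv : v ≠ 0) (h : Same u v) :
    ∃ t : L, t ≠ 0 ∧ u = t • v := by
  unfold Same at h
  have key : ∀ i, v i ≠ 0 → ∃ t : L, t ≠ 0 ∧ u = t • v := by
    intro i hi
    refine ⟨u i / v i, ?_, ?_⟩
    · intro h0
      apply hu
      have hui : u i = 0 := by
        rcases div_eq_zero_iff.1 h0 with h1 | h1
        · exact h1
        · exact absurd h1 hi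
      fin_cases i
      · have h2 : u 0 = 0 := hui
        rw [h2, zero_mul] at h
        funext j
        fin_cases j
        · exact h2
        · exact (mul_eq_zero.1 h.symm).resolve_right hi
      · have h2 : u 1 = 0 := hui
        rw [h2, zero_mul] at h
        funext j
        fin_cases j
        · exact (mul_eq_zero.1 h).resolve_right hi
        · exact h2
    · funext j
      rw [Pi.smul_apply, smul_eq_mul, div_mul_eq_mul_div, eq_div_iff hi]
      fin_cases i <;> fin_cases j
      · rfl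
      · exact h.symm
      · exact h
      · rfl
  by_cases h0 : v 0 = 0
  · refine key 1 fun h1 => hv ?_
    funext j
    fin_cases j
    · exact h0
    · exact h1
  · exact key 0 h0

variable {K : Type} [Field K] [NumberField K]

theorem core {d D : ℕ} (hd : 2 ≤ d) {F : Fin 2 → MvPolynomial (Fin 2) K}
    (hF : Pool.Agent.Q170.HG.IsEndo d F) {c p : Fin 2 → MvPolynomial (Fin 2) K}
    (hc : ∀ i, (c i).IsHomogeneous D) (hp : ∀ i, (p i).IsHomogeneous (D + 1)) (E : ℕ) :
    ∃ B : ℝ, ∀ (L : Type) [Field L] [NumberField L] [Algebra K L], Module.finrank ℚ L ≤ E →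
      ∀ (x : Fin 2 → L) (n : ℕ), 2 * (D + 1) ≤ d ^ n → ev c x ≠ 0 → (ev F)^[n] x ≠ 0 →
        Same (ev c x) ((ev F)^[n] x) → ∀ a : L, ev p x 0 ≠ 0 → a * ev p x 0 = ev p x 1 →
          logHeight₁ a ≤ B := by
  obtain ⟨A1, hA1, h1⟩ := lower hF E
  obtain ⟨A2, hA2, h2⟩ := upper hc E
  obtain ⟨A3, hA3, h3⟩ := upper (p := ![p 1, p 0]) (N := D + 1) (by
    intro i
    fin_cases i
    · exact hp 1
    · exact hp 0) E
  refine ⟨A3 + (D + 1) * (2 * (A1 + A2)), fun L _ _ _ hE x n hn hcx hfx hs a h0 ha => ?_⟩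
  have hd' : (2 : ℝ) ≤ d := by exact_mod_cast hd
  have hit : ∀ n : ℕ, (d : ℝ) ^ n * (logHeight x - A1) + A1 ≤ logHeight ((ev F)^[n] x) := by
    intro n
    induction n with
    | zero => simp
    | succ n ih =>
      rw [Function.iterate_succ_apply']
      refine le_trans ?_ (h1 L hE _)
      have h4 := mul_le_mul_of_nonneg_left ih (by linarith : (0 : ℝ) ≤ d)
      rw [pow_succ]
      nlinarith
  obtain ⟨t, ht, hcf⟩ := same_smul hcx hfx hs
  have h5 : logHeight (ev c x) = logHeight ((ev F)^[n] x) := by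
    rw [hcf, logHeight_smul_eq_logHeight _ ht]
  have h6 : logHeight (ev c x) ≤ A2 + D * logHeight x := h2 L hE x
  have h7 := hit n
  have h8 : (2 * (D + 1) : ℝ) ≤ (d : ℝ) ^ n := by exact_mod_cast hn
  have h9 : 0 ≤ logHeight x := logHeight_nonneg x
  have h10 : logHeight x ≤ 2 * (A1 + A2) := by
    have hD : (0 : ℝ) ≤ D := Nat.cast_nonneg D
    have h11 : (d : ℝ) ^ n * logHeight x - D * logHeight x ≤ d ^ n * A1 + A2 := by
      rw [h5] at h6
      nlinarith
    have h12 : (d : ℝ) ^ n / 2 * logHeight x ≤ d ^ n * logHeight x - D * logHeight x := by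
      nlinarith
    have h13 : 0 < (d : ℝ) ^ n := by positivity
    have h14 : A2 ≤ d ^ n * A2 := by nlinarith
    have h15 : (d : ℝ) ^ n * (logHeight x / 2) ≤ d ^ n * (A1 + A2) := by nlinarith
    have h16 := le_of_mul_le_mul_left h15 h13
    linarith
  have h11 : a = ev p x 1 / ev p x 0 := by rw [eq_div_iff h0]; exact ha
  rw [h11, logHeight₁_div_eq_logHeight]
  have h12 := h3 L hE x
  have h13 : (fun j => aeval x ((![p 1, p 0] : Fin 2 → MvPolynomial (Fin 2) K) j)) =
      ![ev p x 1, ev p x 0] := by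
    funext j
    fin_cases j <;> rfl
  rw [h13] at h12
  push_cast at h12
  have h14 : (D + 1 : ℝ) * logHeight x ≤ (D + 1) * (2 * (A1 + A2)) :=
    mul_le_mul_of_nonneg_left h10 (by positivity)
  linarith

lemma one_le_prodS {ι : Type} (s : Finset ι) {f : ι → ℝ} (h : ∀ i, 1 ≤ f i) : 1 ≤ ∏ i ∈ s, f i := by
  rw [← Finset.prod_const_one (s := s)]
  exact Finset.prod_le_prod (fun _ _ => zero_le_one) fun i _ => h i

lemma le_height {L : Type} [Field L] [NumberField L] (ψ : L →+* ℂ) (a : L) : ‖ψ a‖ ≤ mulHeight₁ a := by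
  rw [NumberField.mulHeight₁_eq]
  have h1 : 1 ≤ ∏ᶠ v : FinitePlace L, max (v a) 1 := one_le_finprod fun v => le_max_right _ _
  have h2 : ‖ψ a‖ ≤ ∏ v : InfinitePlace L, max (v a) 1 ^ v.mult := by
    classical
    rw [← Finset.mul_prod_erase _ _ (Finset.mem_univ (InfinitePlace.mk ψ))]
    have h3 : 1 ≤ ∏ v ∈ Finset.univ.erase (InfinitePlace.mk ψ), max (v a) 1 ^ v.mult :=
      one_le_prodS _ fun v => one_le_pow₀ (le_max_right _ _)
    have h4 : ‖ψ a‖ ≤ max ((InfinitePlace.mk ψ) a) 1 ^ (InfinitePlace.mk ψ).mult := by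
      rw [InfinitePlace.apply]
      exact (le_max_left _ _).trans (le_self_pow₀ (le_max_right _ _) (InfinitePlace.mult_ne_zero))
    exact h4.trans (le_mul_of_one_le_right (le_trans (norm_nonneg _) h4) h3)
  exact h2.trans (le_mul_of_one_le_right (le_trans (norm_nonneg _) h2) h1)

lemma height_nat {L : Type} [Field L] [NumberField L] {n : ℕ} (hn : n ≠ 0) :
    Real.log n ≤ logHeight₁ (n : L) := by
  have : Nonempty (L →+* ℂ) := inferInstance
  obtain ⟨ψ⟩ := this
  have h := le_height ψ (n : L)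
  rw [map_natCast, Complex.norm_natCast] at h
  exact Real.log_le_log (by exact_mod_cast Nat.pos_of_ne_zero hn) h

lemma height_pos {l : K} (hl : l ≠ 0) (hr : ∀ n : ℕ, 0 < n → l ^ n ≠ 1) :
    ∃ κ : ℝ, 0 < κ ∧ ∀ (L : Type) [Field L] [NumberField L] [Algebra K L],
      κ ≤ logHeight₁ (algebraMap K L l) := by
  by_cases hi : IsIntegral ℤ l
  · have h1 : ∃ φ : K →+* ℂ, 1 < ‖φ l‖ := by
      by_contra hno
      push Not at hno
      obtain ⟨n, hn, h⟩ := NumberField.Embeddings.pow_eq_one_of_norm_le_one K ℂ hl hi hno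
      exact hr n hn h
    obtain ⟨φ, hφ⟩ := h1
    refine ⟨Real.log ‖φ l‖, Real.log_pos hφ, fun L _ _ _ => ?_⟩
    let _ := φ.toAlgebra
    have : Algebra.IsAlgebraic K L := by
      have : FiniteDimensional K L := FiniteDimensional.right ℚ K L
      infer_instance
    let ψ : L →ₐ[K] ℂ := IsAlgClosed.lift
    have h2 := le_height ψ.toRingHom (algebraMap K L l)
    have h3 : ψ.toRingHom (algebraMap K L l) = φ l := ψ.commutes l
    rw [h3] at h2
    exact Real.log_le_log (by linarith) h2
  · refine ⟨Real.log 2, Real.log_pos one_lt_two, fun L _ _ _ => ?_⟩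
    obtain ⟨n, hn, hle, hint⟩ := exists_nat_le_mulHeight₁ (algebraMap K L l)
    have hn1 : n ≠ 1 := by
      rintro rfl
      rw [Nat.cast_one, one_mul] at hint
      exact hi ((isIntegral_algebraMap_iff (algebraMap K L).injective).1 hint)
    have h2 : (2 : ℝ) ≤ n := by
      have : 2 ≤ n := by omega
      exact_mod_cast this
    exact Real.log_le_log two_pos (h2.trans hle)

end Pool.Agent.H422.RS
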