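import Mathlib
import Pool.Agent.H422.RS.Core
import Pool.Agent.H422.SK.Base

set_option autoImplicit false

/-!
Points over an algebraically closed field.
-/

namespace Pool.Agent.H422.RS

open MvPolynomial Height NumberField

section forms

variable {K : Type} [Field K]

lemma dehom {N : ℕ} {P : MvPolynomial (Fin 2) K} (hP : P.IsHomogeneous N) (h0 : P ≠ 0) :
    (aeval ![1, Polynomial.X] P : Polynomial K) ≠ 0 ∧
      (aeval ![1, Polynomial.X] P : Polynomial K).natDegree ≤ N := by
  classical
  have hdeg : ∀ m ∈ P.support, m 0 + m 1 = N := by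
    intro m hm
    have h3 := hP (mem_support_iff.1 hm)
    rw [← h3, Finsupp.weight_apply, Finsupp.sum_fintype _ _ (by simp)]
    simp
  have hsum : (aeval ![1, Polynomial.X] P : Polynomial K) =
      ∑ m ∈ P.support, Polynomial.C (coeff m P) * Polynomial.X ^ m 1 := by
    rw [aeval_def, eval₂_eq']
    refine Finset.sum_congr rfl fun m _ => ?_
    rw [Fin.prod_univ_two]
    simp
  obtain ⟨m, hm⟩ := ne_zero_iff.1 h0
  constructor
  · intro h
    apply hm
    have h1 : (aeval ![1, Polynomial.X] P : Polynomial K).coeff (m 1) = coeff m P := by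
      rw [hsum, Polynomial.finset_sum_coeff, Finset.sum_eq_single m]
      · rw [Polynomial.coeff_C_mul_X_pow, if_pos rfl]
      · intro m' hm' hne
        rw [Polynomial.coeff_C_mul_X_pow, if_neg]
        intro he
        apply hne
        have h2 := hdeg m' hm'
        have h3 := hdeg m (mem_support_iff.2 hm)
        ext i
        fin_cases i
        · show m' 0 = m 0
          omega
        · exact he.symm
      · intro hno
        exact absurd (mem_support_iff.2 hm) hno
    rw [← h1, h, Polynomial.coeff_zero]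
  · rw [hsum]
    refine Polynomial.natDegree_sum_le_of_forall_le _ _ fun m hm => ?_
    refine (Polynomial.natDegree_C_mul_X_pow_le _ _).trans ?_
    have := hdeg m hm
    omega

lemma ev_alg {L Ω : Type} [Field L] [Field Ω] [Algebra K L] [Algebra K Ω] [Algebra L Ω]
    [IsScalarTower K L Ω] (F : Fin 2 → MvPolynomial (Fin 2) K) (y : Fin 2 → L) :
    ev F (fun i => algebraMap L Ω (y i)) = fun i => algebraMap L Ω (ev F y i) := by
  funext i
  exact aeval_algebraMap_apply Ω y (F i)

lemma ev_sm {L : Type} [Field L] [Algebra K L] {d : ℕ} {F : Fin 2 → MvPolynomial (Fin 2) K}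
    (hF : ∀ i, (F i).IsHomogeneous d) (s : L) (y : Fin 2 → L) : ev F (s • y) = s ^ d • ev F y := by
  funext i
  exact Pool.Agent.H422.SK.aeval_smul_hom (hF i) s y

lemma iter_alg {L Ω : Type} [Field L] [Field Ω] [Algebra K L] [Algebra K Ω] [Algebra L Ω]
    [IsScalarTower K L Ω] {d : ℕ} {F : Fin 2 → MvPolynomial (Fin 2) K}
    (hF : ∀ i, (F i).IsHomogeneous d) {s : Ω} (hs : s ≠ 0) (y : Fin 2 → L) (n : ℕ) :
    ∃ s' : Ω, s' ≠ 0 ∧ (ev F)^[n] (s • fun i => algebraMap L Ω (y i)) =
      s' • fun i => algebraMap L Ω ((ev F)^[n] y i) := by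
  induction n with
  | zero => exact ⟨s, hs, rfl⟩
  | succ n ih =>
    obtain ⟨s', hs', h⟩ := ih
    refine ⟨s' ^ d, pow_ne_zero _ hs', ?_⟩
    rw [Function.iterate_succ_apply', h, ev_sm hF, ev_alg, Function.iterate_succ_apply']

end forms

lemma same_sm {L : Type} [Field L] {s t : L} (hs : s ≠ 0) (ht : t ≠ 0) {u v : Fin 2 → L} :
    Same (s • u) (t • v) ↔ Same u v := by
  unfold Same
  simp only [Pi.smul_apply, smul_eq_mul]
  constructor
  · intro h
    apply mul_left_cancel₀ (mul_ne_zero hs ht)
    linear_combination h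
  · intro h
    linear_combination s * t * h

variable {K : Type} [Field K] [NumberField K]

theorem bounded {d D : ℕ} (hd : 2 ≤ d) {F : Fin 2 → MvPolynomial (Fin 2) K}
    (hF : Pool.Agent.Q170.HG.IsEndo d F) {c p : Fin 2 → MvPolynomial (Fin 2) K}
    (hc : ∀ i, (c i).IsHomogeneous D) (hp : ∀ i, (p i).IsHomogeneous (D + 1))
    (Ω : Type) [Field Ω] [Algebra K Ω] (hc0 : ∀ x : Fin 2 → Ω, x ≠ 0 → ev c x ≠ 0)
    (hF0 : ∀ x : Fin 2 → Ω, x ≠ 0 → ev F x ≠ 0) (a : ℕ → K)
    (ha : ∀ B : ℝ, ∃ N : ℕ, ∀ n, N ≤ n → ∀ (L : Type) [Field L] [NumberField L] [Algebra K L],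
      B < logHeight₁ (algebraMap K L (a n)))
    (hne : ∃ N : ℕ, ∀ n, N ≤ n → C (a n) * p 0 - p 1 ≠ 0) :
    ∃ N : ℕ, ∀ n, N ≤ n → ∀ x : Fin 2 → Ω, x ≠ 0 → Same (ev c x) ((ev F)^[n] x) →
      algebraMap K Ω (a n) * ev p x 0 = ev p x 1 → ev p x 0 = 0 := by
  obtain ⟨B, hB⟩ := core hd hF hc hp (Module.finrank ℚ K * (D + 1))
  obtain ⟨N1, hN1⟩ := ha B
  obtain ⟨N2, hN2⟩ := hne
  refine ⟨max N1 (max N2 (2 * (D + 1))), fun n hn x hx hs hax => ?_⟩
  have hn1 : N1 ≤ n := (le_max_left _ _).trans hn
  have hn2 : N2 ≤ n := (le_max_left _ _).trans ((le_max_right _ _).trans hn)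
  have hn3 : 2 * (D + 1) ≤ n := (le_max_right _ _).trans ((le_max_right _ _).trans hn)
  have hn4 : 2 * (D + 1) ≤ d ^ n := hn3.trans (Nat.lt_pow_self (by omega)).le
  set P := C (a n) * p 0 - p 1 with hP
  have hPh : P.IsHomogeneous (D + 1) := by
    refine IsHomogeneous.sub ?_ (hp 1)
    have := (isHomogeneous_C (Fin 2) (a n)).mul (hp 0)
    rwa [zero_add] at this
  obtain ⟨hQ0, hQd⟩ := dehom hPh (hN2 n hn2)
  set Q : Polynomial K := aeval ![1, Polynomial.X] P with hQ
  have hPx : aeval x P = 0 := by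
    rw [hP, map_sub, map_mul, aeval_C]
    exact sub_eq_zero.2 hax
  -- the coordinate
  set t : Ω := x 1 / x 0 with ht
  have hint : IsIntegral K t ∧ (minpoly K t).natDegree ≤ D + 1 := by
    by_cases hx0 : x 0 = 0
    · have : t = algebraMap K Ω 0 := by rw [ht, hx0, div_zero, map_zero]
      rw [this]
      refine ⟨isIntegral_algebraMap, ?_⟩
      rw [minpoly.eq_X_sub_C, Polynomial.natDegree_X_sub_C]
      omega
    · have h1 : Polynomial.aeval t Q = 0 := by
        rw [hQ]
        have h2 : Polynomial.aeval t (aeval ![1, Polynomial.X] P : Polynomial K) =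
            aeval ![1, t] P := by
          rw [← AlgHom.comp_apply, comp_aeval]
          congr 2
          funext i
          fin_cases i <;> simp
        rw [h2]
        have h3 : x = x 0 • ![1, t] := by
          funext i
          fin_cases i
          · simp
          · show x 1 = x 0 * (x 1 / x 0)
            field_simp
        rw [h3, Pool.Agent.H422.SK.aeval_smul_hom hPh] at hPx
        exact (mul_eq_zero.1 hPx).resolve_left (pow_ne_zero _ hx0)
      have h2 : IsAlgebraic K t := ⟨Q, hQ0, h1⟩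
      refine ⟨h2.isIntegral, ?_⟩
      exact (Polynomial.natDegree_le_of_dvd (minpoly.dvd K t h1) hQ0).trans hQd
  obtain ⟨hti, htd⟩ := hint
  let L := IntermediateField.adjoin K {t}
  have hfd : FiniteDimensional K L := IntermediateField.adjoin.finiteDimensional hti
  have hfd2 : FiniteDimensional ℚ L := FiniteDimensional.trans ℚ K L
  have : CharZero L := charZero_of_injective_algebraMap (algebraMap K L).injective
  have hnf : NumberField L := { }
  have hE : Module.finrank ℚ L ≤ Module.finrank ℚ K * (D + 1) := by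
    rw [← Module.finrank_mul_finrank ℚ K L, IntermediateField.adjoin.finrank hti]
    exact Nat.mul_le_mul_left _ htd
  have hy : ∃ y : Fin 2 → L, ∃ s : Ω, s ≠ 0 ∧ x = s • fun i => algebraMap L Ω (y i) := by
    by_cases hx0 : x 0 = 0
    · have hx1 : x 1 ≠ 0 := by
        intro h1
        apply hx
        funext i
        fin_cases i
        · exact hx0
        · exact h1
      refine ⟨![0, 1], x 1, hx1, ?_⟩
      funext i
      fin_cases i
      · simp [hx0]
      · simp
    · refine ⟨![1, ⟨t, IntermediateField.mem_adjoin_simple_self K t⟩], x 0, hx0, ?_⟩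
      funext i
      fin_cases i
      · simp
      · show x 1 = x 0 * (x 1 / x 0)
        field_simp
  obtain ⟨y, s, hs0, hxy⟩ := hy
  by_contra hp0
  obtain ⟨s', hs', hit⟩ := iter_alg (Ω := Ω) hF.1 hs0 y n
  have hinj : Function.Injective (algebraMap L Ω) := (algebraMap L Ω).injective
  have hz : ∀ z : Fin 2 → L, (s • fun i => algebraMap L Ω (z i)) ≠ 0 → z ≠ 0 := by
    rintro z h rfl
    apply h
    funext i
    simp
  have hcy : ev c x = s ^ D • fun i => algebraMap L Ω (ev c y i) := by
    rw [hxy, ev_sm hc, ev_alg]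
  have hpy : ev p x = s ^ (D + 1) • fun i => algebraMap L Ω (ev p y i) := by
    rw [hxy, ev_sm hp, ev_alg]
  have hFx : ∀ m : ℕ, (ev F)^[m] x ≠ 0 := by
    intro m
    induction m with
    | zero => exact hx
    | succ m ih =>
      rw [Function.iterate_succ_apply']
      exact hF0 _ ih
  have h1 : ev c y ≠ 0 := by
    intro h
    apply hc0 x hx
    rw [hcy, h]
    funext i
    simp
  have h2 : (ev F)^[n] y ≠ 0 := by
    intro h
    apply hFx n
    rw [hxy, hit, h]
    funext i
    simp
  have h3 : Same (ev c y) ((ev F)^[n] y) := by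
    rw [hcy, hxy, hit, same_sm (pow_ne_zero _ hs0) hs'] at hs
    unfold Same at hs ⊢
    apply hinj
    rw [map_mul, map_mul]
    exact hs
  have hp0' : ev p y 0 ≠ 0 := by
    intro h
    apply hp0
    rw [hpy, Pi.smul_apply, h, map_zero, smul_zero]
  have h4 : algebraMap K L (a n) * ev p y 0 = ev p y 1 := by
    rw [hpy] at hax
    simp only [Pi.smul_apply, smul_eq_mul] at hax
    apply hinj
    rw [map_mul, ← IsScalarTower.algebraMap_apply]
    apply mul_left_cancel₀ (pow_ne_zero (D + 1) hs0)
    linear_combination hax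
  exact absurd (hB L hE y n hn4 h1 h2 h3 _ hp0' h4) (not_le.2 (hN1 n hn1 L))

end Pool.Agent.H422.RS
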