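import Mathlib
import Pool.Agent.H422.RS.Bnd
import Pool.Agent.H422.SK.DomV
import Pool.Agent.H422.SK.AP

set_option autoImplicit false

/-!
Eventually periodic sets and the main step.
-/

namespace Pool.Agent.H422.RS

open MvPolynomial Height NumberField
open Pool.Agent.H422.SK (EvPer)

section per

lemma evp_not {s : ℕ → Prop} (h : EvPer s) : EvPer fun n => ¬ s n := by
  obtain ⟨N, P, hP, h⟩ := h
  exact ⟨N, P, hP, fun n hn => not_congr (h n hn)⟩

lemma evp_congr {s t : ℕ → Prop} (h : EvPer s) (N : ℕ) (hst : ∀ n, N ≤ n → (s n ↔ t n)) : EvPer t := by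
  obtain ⟨M, P, hP, h⟩ := h
  refine ⟨max N M, P, hP, fun n hn => ?_⟩
  have h1 : N ≤ n := (le_max_left _ _).trans hn
  have h2 : M ≤ n := (le_max_right _ _).trans hn
  rw [← hst n h1, ← hst (n + P) (by omega), h n h2]

lemma evp_const (p : Prop) : EvPer fun _ => p := ⟨0, 1, one_pos, fun _ _ => Iff.rfl⟩

lemma evp_or {s t : ℕ → Prop} (hs : EvPer s) (ht : EvPer t) : EvPer fun n => s n ∨ t n :=
  evp_congr (evp_not (EvPer.and (evp_not hs) (evp_not ht))) 0 fun n _ => by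
    show ¬ (¬ s n ∧ ¬ t n) ↔ _
    tauto

lemma evp_ex {ι : Type} (T : Finset ι) {s : ι → ℕ → Prop} (h : ∀ i ∈ T, EvPer (s i)) :
    EvPer fun n => ∃ i ∈ T, s i n :=
  evp_congr (evp_not (EvPer.all T (s := fun i n => ¬ s i n) fun i hi => evp_not (h i hi))) 0 fun n _ => by
    push Not
    rfl

lemma evp_mod (k r : ℕ) (hk : 0 < k) : EvPer fun n => n % k = r :=
  ⟨0, k, hk, fun n _ => by
    show n % k = r ↔ (n + k) % k = r
    rw [Nat.add_mod_right]⟩

lemma evp_class {k : ℕ} (hk : 0 < k) {s : ℕ → ℕ → Prop} (h : ∀ r, EvPer (s r)) :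
    EvPer fun n => s (n % k) n :=
  evp_congr (evp_ex (Finset.range k) (s := fun r n => n % k = r ∧ s r n)
    fun r _ => EvPer.and (evp_mod k r hk) (h r)) 0 fun n _ => by
    constructor
    · rintro ⟨r, _, h1, h2⟩
      rw [h1]
      exact h2
    · intro h1
      exact ⟨n % k, Finset.mem_range.2 (Nat.mod_lt _ hk), rfl, h1⟩

lemma orb {X : Type} (φ : X → X) (a b : X) : EvPer fun n => φ^[n] a = b := by
  by_cases h : ∃ n m, n < m ∧ φ^[n] a = b ∧ φ^[m] a = b
  · obtain ⟨n, m, hnm, hn, hm⟩ := h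
    have hp : φ^[m - n] b = b := by
      rw [← hn, ← Function.iterate_add_apply, Nat.sub_add_cancel hnm.le, hm, hn]
    refine ⟨n, m - n, by omega, fun i hi => ?_⟩
    have h1 : φ^[i + (m - n)] a = φ^[i] a := by
      have h2 : i + (m - n) = (i - n) + ((m - n) + n) := by omega
      rw [h2, Function.iterate_add_apply, Function.iterate_add_apply, hn, hp]
      conv_rhs => rw [show i = (i - n) + n by omega, Function.iterate_add_apply, hn]
    show φ^[i] a = b ↔ φ^[i + (m - n)] a = b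
    rw [h1]
  · by_cases h0 : ∃ n, φ^[n] a = b
    · obtain ⟨n, hn⟩ := h0
      refine ⟨n + 1, 1, one_pos, fun i hi => ?_⟩
      constructor
      · intro h1
        exact absurd ⟨n, i, by omega, hn, h1⟩ h
      · intro h1
        exact absurd ⟨n, i + 1, by omega, hn, h1⟩ h
    · exact ⟨0, 1, one_pos, fun i _ => ⟨fun h1 => absurd ⟨i, h1⟩ h0, fun h1 => absurd ⟨i + 1, h1⟩ h0⟩⟩

end per

section nf

variable {Ω : Type} [Field Ω]

open Classical in
noncomputable def nfm (x : Fin 2 → Ω) : Fin 2 → Ω := if x 0 = 0 then ![0, 1] else ![1, x 1 / x 0]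

lemma nfm_eq {x : Fin 2 → Ω} (hx : x ≠ 0) : ∃ s : Ω, s ≠ 0 ∧ x = s • nfm x := by
  unfold nfm
  split_ifs with h
  · refine ⟨x 1, fun h1 => hx ?_, ?_⟩
    · funext i
      fin_cases i
      · exact h
      · exact h1
    · funext i
      fin_cases i
      · simp [h]
      · simp
  · refine ⟨x 0, h, ?_⟩
    funext i
    fin_cases i
    · simp
    · show x 1 = x 0 * (x 1 / x 0)
      field_simp

lemma nfm_ne (x : Fin 2 → Ω) : nfm x ≠ 0 := by
  unfold nfm
  split_ifs
  · intro h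
    have := congrFun h 1
    simp at this
  · intro h
    have := congrFun h 0
    simp at this

lemma nfm_smul {s : Ω} (hs : s ≠ 0) (x : Fin 2 → Ω) : nfm (s • x) = nfm x := by
  unfold nfm
  by_cases h : x 0 = 0
  · rw [if_pos h, if_pos (by simp [h])]
  · rw [if_neg h, if_neg (by simp [h, hs])]
    congr 2
    simp only [Pi.smul_apply, smul_eq_mul]
    rw [mul_div_mul_left _ _ hs]

lemma same_iff {x y : Fin 2 → Ω} (hx : x ≠ 0) (hy : y ≠ 0) : Same x y ↔ nfm x = nfm y := by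
  constructor
  · intro h
    obtain ⟨t, ht, rfl⟩ := same_smul hx hy h
    exact nfm_smul ht y
  · intro h
    obtain ⟨s, hs, h1⟩ := nfm_eq hx
    obtain ⟨t, ht, h2⟩ := nfm_eq hy
    rw [h1, h2, same_sm hs ht, h]
    exact mul_comm _ _

variable {K : Type} [Field K] [Algebra K Ω]

lemma orbit_per {d : ℕ} {F : Fin 2 → MvPolynomial (Fin 2) K} (hF : ∀ i, (F i).IsHomogeneous d)
    (hF0 : ∀ x : Fin 2 → Ω, x ≠ 0 → ev F x ≠ 0) {y z : Fin 2 → Ω} (hy : y ≠ 0) (hz : z ≠ 0) :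
    EvPer fun n => Same z ((ev F)^[n] y) := by
  have hne : ∀ n, (ev F)^[n] y ≠ 0 := by
    intro n
    induction n with
    | zero => exact hy
    | succ n ih =>
      rw [Function.iterate_succ_apply']
      exact hF0 _ ih
  have h1 : ∀ n, nfm ((ev F)^[n] y) = (fun x => nfm (ev F x))^[n] (nfm y) := by
    intro n
    induction n with
    | zero => rfl
    | succ n ih =>
      rw [Function.iterate_succ_apply', Function.iterate_succ_apply', ← ih]
      obtain ⟨s, hs, h⟩ := nfm_eq (hne n)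
      conv_lhs => rw [h, ev_sm hF, nfm_smul (pow_ne_zero _ hs)]
  refine evp_congr (orb (fun x => nfm (ev F x)) (nfm y) (nfm z)) 0 fun n _ => ?_
  rw [same_iff hz (hne n), h1]
  exact eq_comm

lemma zeros {N : ℕ} {P : MvPolynomial (Fin 2) K} (hP : P.IsHomogeneous N) (h0 : P ≠ 0) :
    ∃ T : Finset (Fin 2 → Ω), (∀ y ∈ T, y ≠ 0) ∧ ∀ x : Fin 2 → Ω, x ≠ 0 → aeval x P = 0 →
      ∃ y ∈ T, ∃ s : Ω, s ≠ 0 ∧ x = s • y := by
  classical
  obtain ⟨hQ, -⟩ := dehom hP h0
  set Q : Polynomial K := aeval ![1, Polynomial.X] P with hQdef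
  refine ⟨insert ![0, 1] ((Q.map (algebraMap K Ω)).roots.toFinset.image fun t => ![1, t]), ?_, ?_⟩
  · intro y hy
    rcases Finset.mem_insert.1 hy with rfl | hy
    · intro h
      have := congrFun h 1
      simp at this
    · obtain ⟨t, _, rfl⟩ := Finset.mem_image.1 hy
      intro h
      have := congrFun h 0
      simp at this
  · intro x hx hPx
    obtain ⟨s, hs, hxs⟩ := nfm_eq hx
    refine ⟨nfm x, ?_, s, hs, hxs⟩
    by_cases hx0 : x 0 = 0
    · rw [nfm, if_pos hx0]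
      exact Finset.mem_insert_self _ _
    · rw [nfm, if_neg hx0]
      refine Finset.mem_insert_of_mem (Finset.mem_image.2 ⟨x 1 / x 0, ?_, rfl⟩)
      rw [Multiset.mem_toFinset, Polynomial.mem_roots ((Polynomial.map_ne_zero_iff
        (algebraMap K Ω).injective).2 hQ), Polynomial.IsRoot.def, Polynomial.eval_map_algebraMap, hQdef]
      have h2 : Polynomial.aeval (x 1 / x 0) (aeval ![1, Polynomial.X] P : Polynomial K) =
          aeval ![1, x 1 / x 0] P := by
        rw [← AlgHom.comp_apply, comp_aeval]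
        congr 2
        funext i
        fin_cases i <;> simp
      rw [h2]
      rw [hxs, nfm, if_neg hx0, Pool.Agent.H422.SK.aeval_smul_hom hP] at hPx
      exact (mul_eq_zero.1 hPx).resolve_left (pow_ne_zero _ hs)

lemma fin_ex {d D N : ℕ} {F c : Fin 2 → MvPolynomial (Fin 2) K} (hF : ∀ i, (F i).IsHomogeneous d)
    (hF0 : ∀ x : Fin 2 → Ω, x ≠ 0 → ev F x ≠ 0) (hc : ∀ i, (c i).IsHomogeneous D)
    (hc0 : ∀ x : Fin 2 → Ω, x ≠ 0 → ev c x ≠ 0)
    {P : MvPolynomial (Fin 2) K} (hP : P.IsHomogeneous N) (h0 : P ≠ 0) (R : (Fin 2 → Ω) → Prop)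
    (hR : ∀ x, x ≠ 0 → R x → aeval x P = 0) (hRs : ∀ (s : Ω) x, s ≠ 0 → R (s • x) → R x) :
    EvPer fun n => ∃ x : Fin 2 → Ω, x ≠ 0 ∧ Same (ev c x) ((ev F)^[n] x) ∧ R x := by
  obtain ⟨T, hT, h⟩ := zeros (Ω := Ω) hP h0
  have h1 : EvPer fun n => ∃ y ∈ T, Same (ev c y) ((ev F)^[n] y) ∧ R y :=
    evp_ex T fun y hy => EvPer.and (orbit_per hF hF0 (hT y hy) (hc0 y (hT y hy))) (evp_const _)
  refine evp_congr h1 0 fun n _ => ?_
  constructor
  · rintro ⟨y, hy, h2, h3⟩
    exact ⟨y, hT y hy, h2, h3⟩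
  · rintro ⟨x, hx, h2, h3⟩
    obtain ⟨y, hy, s, hs, rfl⟩ := h x hx (hR x hx h3)
    refine ⟨y, hy, ?_, hRs s y hs h3⟩
    obtain ⟨s', hs', hit⟩ := iter_alg (K := K) (L := Ω) (Ω := Ω) hF hs y n
    have hid : (fun i => algebraMap Ω Ω (y i)) = y := rfl
    have hid2 : (fun i => algebraMap Ω Ω ((ev F)^[n] y i)) = (ev F)^[n] y := rfl
    rw [hid, hid2] at hit
    rw [hit, ev_sm hc, same_sm (pow_ne_zero _ hs) hs'] at h2
    exact h2

end nf

end Pool.Agent.H422.RS
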