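import Mathlib
import Pool.Agent.H422.RS.Per

set_option autoImplicit false

/-!
The main step.
-/

namespace Pool.Agent.H422.RS

open MvPolynomial Height NumberField
open Pool.Agent.H422.SK (EvPer)

section sol

variable {K : Type} [Field K]

noncomputable def Fn (F : Fin 2 → MvPolynomial (Fin 2) K) : ℕ → Fin 2 → MvPolynomial (Fin 2) K
  | 0 => X
  | n + 1 => fun i => aeval (Fn F n) (F i)

lemma Fn_hom {d : ℕ} {F : Fin 2 → MvPolynomial (Fin 2) K} (hF : ∀ i, (F i).IsHomogeneous d) (n : ℕ) :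
    ∀ i, (Fn F n i).IsHomogeneous (d ^ n) := by
  induction n with
  | zero => intro i; exact isHomogeneous_X K i
  | succ n ih =>
    intro i
    have := (hF i).aeval (Fn F n) ih
    rwa [← pow_succ] at this

variable {Ω : Type} [Field Ω] [Algebra K Ω]

lemma Fn_ev (F : Fin 2 → MvPolynomial (Fin 2) K) (n : ℕ) (x : Fin 2 → Ω) :
    ev (Fn F n) x = (ev F)^[n] x := by
  induction n with
  | zero =>
    funext i
    exact aeval_X x i
  | succ n ih =>
    rw [Function.iterate_succ_apply', ← ih]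
    funext i
    exact comp_aeval_apply (Fn F n) (aeval x) (F i)

lemma form_zero [IsAlgClosed Ω] {N : ℕ} (hN : 0 < N) {H : MvPolynomial (Fin 2) K}
    (hH : H.IsHomogeneous N) : ∃ x : Fin 2 → Ω, x ≠ 0 ∧ aeval x H = 0 := by
  set R : Polynomial Ω := aeval ![Polynomial.X, 1] H with hR
  set Q : Polynomial Ω := aeval ![1, Polynomial.X] H with hQ
  have hRe : ∀ s : Ω, Polynomial.eval s R = aeval ![s, 1] H := by
    intro s
    have h2 := comp_aeval_apply (![Polynomial.X, 1] : Fin 2 → Polynomial Ω)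
      ((Polynomial.aeval s).restrictScalars K) H
    rw [hR, ← Polynomial.coe_aeval_eq_eval]
    refine h2.trans ?_
    congr 2
    funext i
    fin_cases i <;> simp
  have hQe : ∀ s : Ω, Polynomial.eval s Q = aeval ![1, s] H := by
    intro s
    have h2 := comp_aeval_apply (![1, Polynomial.X] : Fin 2 → Polynomial Ω)
      ((Polynomial.aeval s).restrictScalars K) H
    rw [hQ, ← Polynomial.coe_aeval_eq_eval]
    refine h2.trans ?_
    congr 2
    funext i
    fin_cases i <;> simp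
  by_cases hdeg : R.degree = 0
  · have hc := Polynomial.eq_C_of_degree_eq_zero hdeg
    obtain ⟨r, hr⟩ : ∃ r : Ω, R = Polynomial.C r := ⟨_, hc⟩
    have hRr : ∀ s, Polynomial.eval s R = r := fun s => by rw [hr, Polynomial.eval_C]
    have h1 : ∀ u : Ω, u ≠ 0 → Polynomial.eval u Q = Polynomial.eval u (Polynomial.C r * Polynomial.X ^ N) := by
      intro u hu
      rw [hQe]
      have h2 : (![1, u] : Fin 2 → Ω) = u • ![u⁻¹, 1] := by
        funext i
        fin_cases i
        · simp [hu]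
        · simp
      rw [h2, Pool.Agent.H422.SK.aeval_smul_hom hH, ← hRe, hRr, Polynomial.eval_mul, Polynomial.eval_C,
        Polynomial.eval_pow, Polynomial.eval_X, mul_comm]
    have h3 : Q = Polynomial.C r * Polynomial.X ^ N := by
      have : Infinite Ω := IsAlgClosed.instInfinite
      apply Polynomial.eq_of_infinite_eval_eq
      refine (Set.finite_singleton (0 : Ω)).infinite_compl.mono fun u hu => h1 u ?_
      exact hu
    refine ⟨![1, 0], fun h => ?_, ?_⟩
    · have := congrFun h 0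
      simp at this
    · rw [← hQe, h3]
      simp [hN.ne']
  · obtain ⟨s, hs⟩ := IsAlgClosed.exists_root R hdeg
    refine ⟨![s, 1], fun h => ?_, ?_⟩
    · have := congrFun h 1
      simp at this
    · rw [← hRe]
      exact hs

lemma sol [IsAlgClosed Ω] {d D : ℕ} (hd : 1 ≤ d) {F c : Fin 2 → MvPolynomial (Fin 2) K}
    (hF : ∀ i, (F i).IsHomogeneous d) (hc : ∀ i, (c i).IsHomogeneous D) (n : ℕ) :
    ∃ x : Fin 2 → Ω, x ≠ 0 ∧ Same (ev c x) ((ev F)^[n] x) := by
  have h1 : (c 0 * Fn F n 1 - c 1 * Fn F n 0).IsHomogeneous (D + d ^ n) :=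
    ((hc 0).mul (Fn_hom hF n 1)).sub ((hc 1).mul (Fn_hom hF n 0))
  obtain ⟨x, hx, h⟩ := form_zero (Ω := Ω) (by positivity) h1
  refine ⟨x, hx, ?_⟩
  rw [map_sub, map_mul, map_mul] at h
  rw [← Fn_ev]
  exact sub_eq_zero.1 h

end sol

variable {K : Type} [Field K] [NumberField K] {Ω : Type} [Field Ω] [IsAlgClosed Ω] [Algebra K Ω]

theorem main1 {d D : ℕ} (hd : 2 ≤ d) {F : Fin 2 → MvPolynomial (Fin 2) K}
    (hF : Pool.Agent.Q170.HG.IsEndo d F) {c p : Fin 2 → MvPolynomial (Fin 2) K}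
    (hc : ∀ i, (c i).IsHomogeneous D) (hp : ∀ i, (p i).IsHomogeneous (D + 1))
    (hc0 : ∀ x : Fin 2 → Ω, x ≠ 0 → ev c x ≠ 0) (hF0 : ∀ x : Fin 2 → Ω, x ≠ 0 → ev F x ≠ 0)
    (hpne : ¬ (p 0 = 0 ∧ p 1 = 0)) (a : ℕ → K) (G : ℕ → (Fin 2 → Ω) → Fin 2 → Ω)
    (hS : ∀ n x, x ≠ 0 → (Same (ev c x) (G n x) ↔ algebraMap K Ω (a n) * ev p x 0 = ev p x 1))
    (ha : (∃ k, 0 < k ∧ ∀ n, a (n + k) = a n) ∨ (Function.Injective a ∧
      ∀ B : ℝ, ∃ N : ℕ, ∀ n, N ≤ n → ∀ (L : Type) [Field L] [NumberField L] [Algebra K L],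
        B < logHeight₁ (algebraMap K L (a n)))) :
    EvPer fun n => ∃ x : Fin 2 → Ω, x ≠ 0 ∧ Same (ev c x) ((ev F)^[n] x) ∧ Same (ev c x) (G n x) := by
  have hsc : ∀ (b : Ω) (s : Ω) (x : Fin 2 → Ω), s ≠ 0 → b * ev p (s • x) 0 = ev p (s • x) 1 →
      b * ev p x 0 = ev p x 1 := by
    intro b s x hs h
    rw [ev_sm hp, Pi.smul_apply, Pi.smul_apply, smul_eq_mul, smul_eq_mul] at h
    apply mul_left_cancel₀ (pow_ne_zero (D + 1) hs)
    linear_combination h
  rcases ha with ⟨k, hk, hper⟩ | ⟨hinj, hB⟩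
  · have hmod : ∀ n, a n = a (n % k) := by
      intro n
      have h1 : ∀ j m, a (m + k * j) = a m := by
        intro j
        induction j with
        | zero => intro m; rw [mul_zero, add_zero]
        | succ j ih => intro m; rw [mul_add, mul_one, ← add_assoc, hper, ih]
      conv_lhs => rw [← Nat.mod_add_div n k]
      exact h1 _ _
    have h1 : ∀ r, EvPer fun n => ∃ x : Fin 2 → Ω, x ≠ 0 ∧ Same (ev c x) ((ev F)^[n] x) ∧
        algebraMap K Ω (a r) * ev p x 0 = ev p x 1 := by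
      intro r
      have hPh : (C (a r) * p 0 - p 1).IsHomogeneous (D + 1) := by
        refine IsHomogeneous.sub ?_ (hp 1)
        have := (isHomogeneous_C (Fin 2) (a r)).mul (hp 0)
        rwa [zero_add] at this
      have hval : ∀ x : Fin 2 → Ω, aeval x (C (a r) * p 0 - p 1) =
          algebraMap K Ω (a r) * ev p x 0 - ev p x 1 := by
        intro x
        rw [map_sub, map_mul, aeval_C]
        rfl
      by_cases hP : C (a r) * p 0 - p 1 = 0
      · refine evp_congr (evp_const True) 0 fun n _ => ?_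
        refine ⟨fun _ => ?_, fun _ => trivial⟩
        obtain ⟨x, hx, h⟩ := sol (Ω := Ω) (by omega) hF.1 hc n
        refine ⟨x, hx, h, ?_⟩
        have h2 := hval x
        rw [hP, map_zero] at h2
        exact (sub_eq_zero.1 h2.symm)
      · exact fin_ex hF.1 hF0 hc hc0 hPh hP (fun x => algebraMap K Ω (a r) * ev p x 0 = ev p x 1)
          (fun x _ h => by rw [hval, h, sub_self]) fun s x hs h => hsc _ s x hs h
    refine evp_congr (evp_class hk h1) 0 fun n _ => ?_
    show (∃ x : Fin 2 → Ω, x ≠ 0 ∧ Same (ev c x) ((ev F)^[n] x) ∧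
        algebraMap K Ω (a (n % k)) * ev p x 0 = ev p x 1) ↔ _
    rw [← hmod n]
    constructor
    · rintro ⟨x, hx, h2, h3⟩
      exact ⟨x, hx, h2, (hS n x hx).2 h3⟩
    · rintro ⟨x, hx, h2, h3⟩
      exact ⟨x, hx, h2, (hS n x hx).1 h3⟩
  · have hne : ∃ N : ℕ, ∀ n, N ≤ n → C (a n) * p 0 - p 1 ≠ 0 := by
      by_cases h0 : ∃ m, C (a m) * p 0 - p 1 = 0
      · obtain ⟨m, hm⟩ := h0
        have hp0 : p 0 ≠ 0 := by
          intro h
          apply hpne
          rw [h, mul_zero, zero_sub, neg_eq_zero] at hm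
          exact ⟨h, hm⟩
        refine ⟨m + 1, fun n hn h => ?_⟩
        have h1 : C (a n - a m) * p 0 = 0 := by
          rw [C_sub]
          linear_combination h - hm
        rcases mul_eq_zero.1 h1 with h2 | h2
        · have h3 : a n = a m := sub_eq_zero.1 (C_eq_zero.1 h2)
          have := hinj h3
          omega
        · exact hp0 h2
      · exact ⟨0, fun n _ h => h0 ⟨n, h⟩⟩
    obtain ⟨N, hN⟩ := bounded hd hF hc hp Ω hc0 hF0 a hB hne
    have hPex : ∃ P : MvPolynomial (Fin 2) K, P.IsHomogeneous (D + 1) ∧ P ≠ 0 ∧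
        ∀ x : Fin 2 → Ω, (ev p x 0 = 0 ∧ ev p x 1 = 0) → aeval x P = 0 := by
      by_cases h0 : p 0 = 0
      · exact ⟨p 1, hp 1, fun h => hpne ⟨h0, h⟩, fun x h => h.2⟩
      · exact ⟨p 0, hp 0, h0, fun x h => h.1⟩
    obtain ⟨P, hPh, hP0, hPx⟩ := hPex
    have h1 := fin_ex hF.1 hF0 hc hc0 hPh hP0 (fun x : Fin 2 → Ω => ev p x 0 = 0 ∧ ev p x 1 = 0)
      (fun x _ h => hPx x h) fun s x hs h => by
        rw [ev_sm hp, Pi.smul_apply, Pi.smul_apply, smul_eq_mul, smul_eq_mul] at h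
        exact ⟨(mul_eq_zero.1 h.1).resolve_left (pow_ne_zero _ hs),
          (mul_eq_zero.1 h.2).resolve_left (pow_ne_zero _ hs)⟩
    refine evp_congr h1 N fun n hn => ?_
    constructor
    · rintro ⟨x, hx, h2, h3, h4⟩
      exact ⟨x, hx, h2, (hS n x hx).2 (by rw [h3, h4, mul_zero])⟩
    · rintro ⟨x, hx, h2, h3⟩
      have h4 := (hS n x hx).1 h3
      have h5 := hN n hn x hx h2 h4
      refine ⟨x, hx, h2, h5, ?_⟩
      rw [← h4, h5, mul_zero]

end Pool.Agent.H422.RS
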