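import Mathlib
import Pool.Agent.H422.RS.Main1

set_option autoImplicit false

/-!
Möbius transformations.
-/

namespace Pool.Agent.H422.RS

open MvPolynomial Height NumberField
open Pool.Agent.H422.SK (EvPer)

section lin

variable {K : Type} [Field K]

/-- the linear form with coefficients `u` -/
noncomputable def ln (u : Fin 2 → K) (c : Fin 2 → MvPolynomial (Fin 2) K) : MvPolynomial (Fin 2) K :=
  C (u 0) * c 0 + C (u 1) * c 1

lemma ln_hom {D : ℕ} {c : Fin 2 → MvPolynomial (Fin 2) K} (hc : ∀ i, (c i).IsHomogeneous D)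
    (u : Fin 2 → K) : (ln u c).IsHomogeneous D := by
  have h1 := (isHomogeneous_C (Fin 2) (u 0)).mul (hc 0)
  have h2 := (isHomogeneous_C (Fin 2) (u 1)).mul (hc 1)
  rw [zero_add] at h1 h2
  exact h1.add h2

variable {Ω : Type} [Field Ω] [Algebra K Ω]

/-- the value of the linear form -/
def lv (u : Fin 2 → K) (x : Fin 2 → Ω) : Ω := algebraMap K Ω (u 0) * x 0 + algebraMap K Ω (u 1) * x 1

lemma ln_ev (u : Fin 2 → K) (c : Fin 2 → MvPolynomial (Fin 2) K) (x : Fin 2 → Ω) :
    aeval x (ln u c) = lv u (ev c x) := by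
  rw [ln, map_add, map_mul, map_mul, aeval_C, aeval_C]
  rfl

lemma ln_X (u : Fin 2 → K) (x : Fin 2 → Ω) : aeval x (ln u X) = lv u x := by
  rw [ln_ev]
  congr 1
  funext i
  exact aeval_X x i

def dt (u w : Fin 2 → K) : K := u 0 * w 1 - u 1 * w 0

lemma same_lv {u w : Fin 2 → K} (h : dt u w ≠ 0) (v v' : Fin 2 → Ω) :
    Same v v' ↔ lv u v * lv w v' = lv w v * lv u v' := by
  have h1 : lv u v * lv w v' - lv w v * lv u v' =
      algebraMap K Ω (dt u w) * (v 0 * v' 1 - v 1 * v' 0) := by
    simp only [lv, dt, map_sub, map_mul]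
    ring
  have h2 : algebraMap K Ω (dt u w) ≠ 0 := (map_ne_zero _).2 h
  unfold Same
  rw [← sub_eq_zero, ← sub_eq_zero (a := lv u v * lv w v'), h1, mul_eq_zero]
  constructor
  · intro h3
    exact Or.inr h3
  · rintro (h3 | h3)
    · exact absurd h3 h2
    · exact h3

lemma lv_zero {u w : Fin 2 → K} (h : dt u w ≠ 0) {v : Fin 2 → Ω} (h1 : lv u v = 0) (h2 : lv w v = 0) :
    v = 0 := by
  have h3 : algebraMap K Ω (dt u w) ≠ 0 := (map_ne_zero _).2 h
  funext i
  apply mul_left_cancel₀ h3
  rw [Pi.zero_apply, mul_zero]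
  simp only [lv] at h1 h2
  simp only [dt, map_sub, map_mul]
  fin_cases i
  · show (algebraMap K Ω (u 0) * algebraMap K Ω (w 1) - algebraMap K Ω (u 1) * algebraMap K Ω (w 0)) * v 0 = 0
    linear_combination algebraMap K Ω (w 1) * h1 - algebraMap K Ω (u 1) * h2
  · show (algebraMap K Ω (u 0) * algebraMap K Ω (w 1) - algebraMap K Ω (u 1) * algebraMap K Ω (w 0)) * v 1 = 0
    linear_combination algebraMap K Ω (u 0) * h2 - algebraMap K Ω (w 0) * h1

/-- there is a vector with given values of the two forms -/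
lemma lv_ex {u w : Fin 2 → K} (h : dt u w ≠ 0) (a b : Ω) (hab : ¬ (a = 0 ∧ b = 0)) :
    ∃ v : Fin 2 → Ω, v ≠ 0 ∧ lv u v = a ∧ lv w v = b := by
  have h3 : algebraMap K Ω (dt u w) ≠ 0 := (map_ne_zero _).2 h
  have h4 : algebraMap K Ω (u 0) * algebraMap K Ω (w 1) - algebraMap K Ω (u 1) * algebraMap K Ω (w 0) ≠ 0 := by
    simpa only [dt, map_sub, map_mul] using h3
  have h1 : lv u (![(algebraMap K Ω (w 1) * a - algebraMap K Ω (u 1) * b) /
      (algebraMap K Ω (u 0) * algebraMap K Ω (w 1) - algebraMap K Ω (u 1) * algebraMap K Ω (w 0)),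
      (algebraMap K Ω (u 0) * b - algebraMap K Ω (w 0) * a) /
      (algebraMap K Ω (u 0) * algebraMap K Ω (w 1) - algebraMap K Ω (u 1) * algebraMap K Ω (w 0))]) = a := by
    simp only [lv, Matrix.cons_val_zero, Matrix.cons_val_one]
    rw [mul_div_assoc', mul_div_assoc', ← add_div, div_eq_iff h4]
    ring
  have h2 : lv w (![(algebraMap K Ω (w 1) * a - algebraMap K Ω (u 1) * b) /
      (algebraMap K Ω (u 0) * algebraMap K Ω (w 1) - algebraMap K Ω (u 1) * algebraMap K Ω (w 0)),
      (algebraMap K Ω (u 0) * b - algebraMap K Ω (w 0) * a) /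
      (algebraMap K Ω (u 0) * algebraMap K Ω (w 1) - algebraMap K Ω (u 1) * algebraMap K Ω (w 0))]) = b := by
    simp only [lv, Matrix.cons_val_zero, Matrix.cons_val_one]
    rw [mul_div_assoc', mul_div_assoc', ← add_div, div_eq_iff h4]
    ring
  refine ⟨_, ?_, h1, h2⟩
  intro h0
  rw [h0] at h1 h2
  apply hab
  simp only [lv, Pi.zero_apply, mul_zero, add_zero] at h1 h2
  exact ⟨h1.symm, h2.symm⟩

lemma ln_ne {u w : Fin 2 → K} (h : dt u w ≠ 0) : ln u (X : Fin 2 → MvPolynomial (Fin 2) K) ≠ 0 ∧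
    ln w (X : Fin 2 → MvPolynomial (Fin 2) K) ≠ 0 := by
  constructor
  · intro h0
    obtain ⟨v, _, h1, _⟩ := lv_ex (Ω := K) h 1 0 (by simp)
    rw [← ln_X, h0, map_zero] at h1
    exact zero_ne_one h1
  · intro h0
    obtain ⟨v, _, _, h1⟩ := lv_ex (Ω := K) h 0 1 (by simp)
    rw [← ln_X, h0, map_zero] at h1
    exact zero_ne_one h1

lemma ln_c {u w : Fin 2 → K} (h : dt u w ≠ 0) {c : Fin 2 → MvPolynomial (Fin 2) K}
    (hc0 : ∀ x : Fin 2 → Ω, x ≠ 0 → ev c x ≠ 0) : ¬ (ln u c = 0 ∧ ln w c = 0) := by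
  rintro ⟨h1, h2⟩
  have hx : (![1, 0] : Fin 2 → Ω) ≠ 0 := by
    intro h0
    have := congrFun h0 0
    simp at this
  apply hc0 _ hx
  apply lv_zero h
  · rw [← ln_ev, h1, map_zero]
  · rw [← ln_ev, h2, map_zero]

end lin

variable {K : Type} [Field K] [NumberField K] {Ω : Type} [Field Ω] [IsAlgClosed Ω] [Algebra K Ω]

theorem main2 {d D : ℕ} (hd : 2 ≤ d) {F : Fin 2 → MvPolynomial (Fin 2) K}
    (hF : Pool.Agent.Q170.HG.IsEndo d F) {c g : Fin 2 → MvPolynomial (Fin 2) K}
    (hc : ∀ i, (c i).IsHomogeneous D)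
    (hc0 : ∀ x : Fin 2 → Ω, x ≠ 0 → ev c x ≠ 0) (hF0 : ∀ x : Fin 2 → Ω, x ≠ 0 → ev F x ≠ 0)
    (hg0 : ∀ x : Fin 2 → Ω, x ≠ 0 → ev g x ≠ 0) (u w : Fin 2 → K) (huw : dt u w ≠ 0) (μ ν κ : K)
    (hu : ∀ x : Fin 2 → Ω, lv u (ev g x) = algebraMap K Ω μ * lv u x)
    (hw : ∀ x : Fin 2 → Ω, lv w (ev g x) = algebraMap K Ω ν * lv w x + algebraMap K Ω κ * lv u x) :
    EvPer fun n => ∃ x : Fin 2 → Ω, x ≠ 0 ∧ Same (ev c x) ((ev F)^[n] x) ∧
      Same (ev c x) ((ev g)^[n] x) := by
  have hν : ν ≠ 0 := by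
    intro h
    obtain ⟨x, hx, h1, _⟩ := lv_ex (Ω := Ω) huw 0 1 (by simp)
    apply hg0 x hx
    apply lv_zero huw
    · rw [hu, h1, mul_zero]
    · rw [hw, h, h1, map_zero, zero_mul, mul_zero, add_zero]
  have hμ : μ ≠ 0 := by
    intro h
    obtain ⟨x, hx, h1, h2⟩ := lv_ex (Ω := Ω) huw (algebraMap K Ω ν) (-algebraMap K Ω κ)
      (fun h => hν ((map_eq_zero _).1 h.1))
    apply hg0 x hx
    apply lv_zero huw
    · rw [hu, h, map_zero, zero_mul]
    · rw [hw, h1, h2]
      ring
  have hμ' : algebraMap K Ω μ ≠ 0 := (map_ne_zero _).2 hμ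
  have hun : ∀ n (x : Fin 2 → Ω), lv u ((ev g)^[n] x) = algebraMap K Ω μ ^ n * lv u x := by
    intro n x
    induction n with
    | zero => rw [Function.iterate_zero_apply, pow_zero, one_mul]
    | succ n ih => rw [Function.iterate_succ_apply', hu, ih]; ring
  -- the diagonal case
  have diag : ∀ w : Fin 2 → K, dt u w ≠ 0 →
      (∀ x : Fin 2 → Ω, lv w (ev g x) = algebraMap K Ω ν * lv w x) →
      EvPer fun n => ∃ x : Fin 2 → Ω, x ≠ 0 ∧ Same (ev c x) ((ev F)^[n] x) ∧
        Same (ev c x) ((ev g)^[n] x) := by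
    intro w huw hw
    have hwn : ∀ n (x : Fin 2 → Ω), lv w ((ev g)^[n] x) = algebraMap K Ω ν ^ n * lv w x := by
      intro n x
      induction n with
      | zero => rw [Function.iterate_zero_apply, pow_zero, one_mul]
      | succ n ih => rw [Function.iterate_succ_apply', hw, ih]; ring
    obtain ⟨hX1, hX2⟩ := ln_ne huw
    refine main1 (p := ![ln w X * ln u c, ln u X * ln w c]) hd hF hc ?_ hc0 hF0 ?_ (fun n => (ν / μ) ^ n)
      (fun n => (ev g)^[n]) ?_ ?_
    · have hXh : ∀ i, (X i : MvPolynomial (Fin 2) K).IsHomogeneous 1 := isHomogeneous_X K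
      intro i
      fin_cases i
      · have := (ln_hom hXh w).mul (ln_hom hc u)
        rwa [add_comm] at this
      · have := (ln_hom hXh u).mul (ln_hom hc w)
        rwa [add_comm] at this
    · rintro ⟨h1, h2⟩
      exact ln_c huw hc0 ⟨(mul_eq_zero.1 h1).resolve_left hX2, (mul_eq_zero.1 h2).resolve_left hX1⟩
    · intro n x _
      have e0 : ev (![ln w X * ln u c, ln u X * ln w c] : Fin 2 → MvPolynomial (Fin 2) K) x 0 =
          lv w x * lv u (ev c x) := by
        show aeval x (ln w X * ln u c) = _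
        rw [map_mul, ln_X, ln_ev]
      have e1 : ev (![ln w X * ln u c, ln u X * ln w c] : Fin 2 → MvPolynomial (Fin 2) K) x 1 =
          lv u x * lv w (ev c x) := by
        show aeval x (ln u X * ln w c) = _
        rw [map_mul, ln_X, ln_ev]
      rw [e0, e1, same_lv huw, hun, hwn, map_pow, map_div₀, div_pow, div_mul_eq_mul_div,
        div_eq_iff (pow_ne_zero n hμ')]
      constructor
      · intro h
        linear_combination h
      · intro h
        linear_combination h
    · have hl : ν / μ ≠ 0 := div_ne_zero hν hμ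
      by_cases hr : ∃ k : ℕ, 0 < k ∧ (ν / μ) ^ k = 1
      · obtain ⟨k, hk, h⟩ := hr
        exact Or.inl ⟨k, hk, fun n => by rw [pow_add, h, mul_one]⟩
      · push Not at hr
        refine Or.inr ⟨?_, ?_⟩
        · intro n m h
          by_contra hne
          have key : ∀ n m : ℕ, n < m → (ν / μ) ^ n = (ν / μ) ^ m → False := by
            intro n m hnm h
            apply hr (m - n) (by omega)
            apply mul_left_cancel₀ (pow_ne_zero n hl)
            rw [← pow_add, mul_one, h]
            congr 1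
            omega
          rcases Nat.lt_or_gt_of_ne hne with h1 | h1
          · exact key n m h1 h
          · exact key m n h1 h.symm
        · intro B
          obtain ⟨κ', hκ, h⟩ := height_pos hl hr
          obtain ⟨N, hN⟩ := exists_nat_gt (B / κ')
          refine ⟨N, fun n hn L _ _ _ => ?_⟩
          rw [map_pow, logHeight₁_pow]
          have h1 := h L
          have h2 : (N : ℝ) ≤ n := by exact_mod_cast hn
          have h3 : B < N * κ' := (div_lt_iff₀ hκ).1 hN
          have h4 : (N : ℝ) * κ' ≤ n * κ' := mul_le_mul_of_nonneg_right h2 hκ.le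
          have h5 : (n : ℝ) * κ' ≤ n * logHeight₁ (algebraMap K L (ν / μ)) :=
            mul_le_mul_of_nonneg_left h1 (Nat.cast_nonneg n)
          linarith
  by_cases hk : κ = 0
  · exact diag w huw fun x => by rw [hw, hk, map_zero, zero_mul, add_zero]
  by_cases hνμ : ν = μ
  · -- the parabolic case
    subst hνμ
    set u' : Fin 2 → K := fun i => κ / ν * u i with hu'
    have hlu : ∀ x : Fin 2 → Ω, lv u' x = algebraMap K Ω (κ / ν) * lv u x := by
      intro x
      simp only [lv, hu', map_mul]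
      ring
    have huw' : dt u' w ≠ 0 := by
      have : dt u' w = κ / ν * dt u w := by
        simp only [dt, hu']
        ring
      rw [this]
      exact mul_ne_zero (div_ne_zero hk hν) huw
    have hun' : ∀ n (x : Fin 2 → Ω), lv u' ((ev g)^[n] x) = algebraMap K Ω ν ^ n * lv u' x := by
      intro n x
      rw [hlu, hun, hlu]
      ring
    have hw' : ∀ x : Fin 2 → Ω, lv w (ev g x) = algebraMap K Ω ν * (lv w x + lv u' x) := by
      intro x
      rw [hw, hlu, map_div₀]
      field_simp
    have hwn : ∀ n (x : Fin 2 → Ω), lv w ((ev g)^[n] x) =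
        algebraMap K Ω ν ^ n * (lv w x + n * lv u' x) := by
      intro n x
      induction n with
      | zero => rw [Function.iterate_zero_apply, pow_zero, one_mul, Nat.cast_zero, zero_mul, add_zero]
      | succ n ih =>
        rw [Function.iterate_succ_apply', hw', ih, hun']
        push_cast
        ring
    obtain ⟨hX1, hX2⟩ := ln_ne huw'
    refine main1 (p := ![ln u' X * ln u' c, ln u' X * ln w c - ln w X * ln u' c]) hd hF hc ?_ hc0 hF0 ?_
      (fun n => (n : K)) (fun n => (ev g)^[n]) ?_ ?_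
    · have hXh : ∀ i, (X i : MvPolynomial (Fin 2) K).IsHomogeneous 1 := isHomogeneous_X K
      intro i
      fin_cases i
      · have := (ln_hom hXh u').mul (ln_hom hc u')
        rwa [add_comm] at this
      · have h1 := (ln_hom hXh u').mul (ln_hom hc w)
        have h2 := (ln_hom hXh w).mul (ln_hom hc u')
        rw [add_comm] at h1 h2
        exact h1.sub h2
    · rintro ⟨h1, h2⟩
      have h3 : ln u' c = 0 := (mul_eq_zero.1 h1).resolve_left hX1
      have h4 : ln u' X * ln w c - ln w X * ln u' c = 0 := h2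
      rw [h3, mul_zero, sub_zero] at h4
      exact ln_c huw' hc0 ⟨h3, (mul_eq_zero.1 h4).resolve_left hX1⟩
    · intro n x _
      have e0 : ev (![ln u' X * ln u' c, ln u' X * ln w c - ln w X * ln u' c] :
          Fin 2 → MvPolynomial (Fin 2) K) x 0 = lv u' x * lv u' (ev c x) := by
        show aeval x (ln u' X * ln u' c) = _
        rw [map_mul, ln_X, ln_ev]
      have e1 : ev (![ln u' X * ln u' c, ln u' X * ln w c - ln w X * ln u' c] :
          Fin 2 → MvPolynomial (Fin 2) K) x 1 = lv u' x * lv w (ev c x) - lv w x * lv u' (ev c x) := by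
        show aeval x (ln u' X * ln w c - ln w X * ln u' c) = _
        rw [map_sub, map_mul, map_mul, ln_X, ln_X, ln_ev, ln_ev]
      rw [e0, e1, same_lv huw', hun', hwn, map_natCast]
      have hνn : algebraMap K Ω ν ^ n ≠ 0 := pow_ne_zero n hμ'
      constructor
      · intro h
        apply mul_left_cancel₀ hνn
        linear_combination h
      · intro h
        linear_combination algebraMap K Ω ν ^ n * h
    · refine Or.inr ⟨Nat.cast_injective, fun B => ?_⟩
      obtain ⟨N, hN⟩ := exists_nat_gt (Real.exp B)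
      refine ⟨N, fun n hn L _ _ _ => ?_⟩
      rw [map_natCast]
      have hn0 : n ≠ 0 := by
        rintro rfl
        have : N = 0 := Nat.le_zero.1 hn
        rw [this, Nat.cast_zero] at hN
        exact absurd hN (not_lt.2 (Real.exp_pos B).le)
      refine lt_of_lt_of_le ?_ (height_nat hn0)
      rw [Real.lt_log_iff_exp_lt (by exact_mod_cast Nat.pos_of_ne_zero hn0)]
      have h2 : (N : ℝ) ≤ n := by exact_mod_cast hn
      linarith
  · have hsub : ν - μ ≠ 0 := sub_ne_zero.2 hνμ
    refine diag (fun i => w i + κ / (ν - μ) * u i) ?_ ?_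
    · have : dt u (fun i => w i + κ / (ν - μ) * u i) = dt u w := by
        simp only [dt]
        ring
      rwa [this]
    · intro x
      have h1 : ∀ x : Fin 2 → Ω, lv (fun i => w i + κ / (ν - μ) * u i) x =
          lv w x + algebraMap K Ω (κ / (ν - μ)) * lv u x := by
        intro x
        simp only [lv, map_add, map_mul]
        ring
      have h2 : algebraMap K Ω κ = algebraMap K Ω (κ / (ν - μ)) * (algebraMap K Ω ν - algebraMap K Ω μ) := by
        rw [← map_sub, ← map_mul]
        congr 1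
        field_simp
      rw [h1, h1, hu, hw, h2]
      ring

end Pool.Agent.H422.RS
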