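import Mathlib
import Pool.Agent.H422.RS.Main2

set_option autoImplicit false

/-!
Möbius transformations over a number field.
-/

namespace Pool.Agent.H422.RS

open MvPolynomial Height NumberField
open Pool.Agent.H422.SK (EvPer)
open Pool.Agent.Q170.HG (IsEndo cert)

section base

variable {K : Type} [Field K]

lemma reg {d : ℕ} {F : Fin 2 → MvPolynomial (Fin 2) K} (hF : IsEndo d F) {Ω : Type} [Field Ω]
    [Algebra K Ω] (x : Fin 2 → Ω) (hx : x ≠ 0) : ev F x ≠ 0 := by
  intro h
  apply hx
  obtain ⟨M, q, _, hc⟩ := cert hF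
  funext k
  have h1 := congrArg (aeval x) (hc k)
  rw [map_sum, map_pow, aeval_X, Finset.sum_eq_zero] at h1
  · exact eq_zero_of_pow_eq_zero h1.symm
  · intro j _
    have h2 : aeval x (F j) = 0 := congrFun h j
    rw [map_mul, h2, mul_zero]

lemma endo_map {d : ℕ} {F : Fin 2 → MvPolynomial (Fin 2) K} (hF : IsEndo d F) {K' : Type} [Field K']
    [Algebra K K'] : IsEndo d fun i => map (algebraMap K K') (F i) := by
  refine ⟨fun i => (hF.1 i).map _, fun x h => ?_⟩
  obtain ⟨M, q, _, hc⟩ := cert hF
  funext k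
  have h1 := congrArg (fun P => aeval x (map (algebraMap K K') P)) (hc k)
  simp only [map_sum, map_mul, map_pow, map_X, aeval_X] at h1
  rw [Finset.sum_eq_zero] at h1
  · exact eq_zero_of_pow_eq_zero h1.symm
  · intro j _
    rw [h j, mul_zero]

lemma ev_map {F : Fin 2 → MvPolynomial (Fin 2) K} {K' Ω : Type} [Field K'] [Field Ω] [Algebra K K']
    [Algebra K Ω] [Algebra K' Ω] [IsScalarTower K K' Ω] :
    (ev (fun i => map (algebraMap K K') (F i)) : (Fin 2 → Ω) → _) = ev F := by
  funext x i
  exact aeval_map_algebraMap K' x (F i)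

lemma lin_form {P : MvPolynomial (Fin 2) K} (hP : P.IsHomogeneous 1) :
    ∃ a b : K, P = C a * X 0 + C b * X 1 := by
  classical
  have hdeg : ∀ m, coeff m P ≠ 0 → m 0 + m 1 = 1 := by
    intro m hm
    have h3 := hP hm
    refine Eq.trans ?_ h3
    rw [Finsupp.weight_apply, Finsupp.sum_fintype _ _ (by simp)]
    simp
  refine ⟨coeff (Finsupp.single 0 1) P, coeff (Finsupp.single 1 1) P, ?_⟩
  ext m
  rw [coeff_add, coeff_C_mul, coeff_C_mul, coeff_X, coeff_X]
  have hne : (Finsupp.single (0 : Fin 2) 1 : Fin 2 →₀ ℕ) ≠ Finsupp.single 1 1 := by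
    intro h
    have := congrArg (fun f : Fin 2 →₀ ℕ => f 0) h
    simp at this
  by_cases h0 : Finsupp.single 0 1 = m
  · rw [if_pos h0, if_neg (by rw [← h0]; exact hne.symm), h0]
    ring
  · rw [if_neg h0]
    by_cases h1 : Finsupp.single 1 1 = m
    · rw [if_pos h1, h1]
      ring
    · rw [if_neg h1, mul_zero, mul_zero, add_zero]
      by_contra hm
      have h2 := hdeg m hm
      rcases Nat.eq_zero_or_pos (m 0) with h3 | h3
      · apply h1
        ext i
        fin_cases i
        · show (Finsupp.single (1 : Fin 2) 1 : Fin 2 →₀ ℕ) 0 = m 0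
          rw [h3]
          simp
        · show (Finsupp.single (1 : Fin 2) 1 : Fin 2 →₀ ℕ) 1 = m 1
          rw [Finsupp.single_eq_same]
          omega
      · apply h0
        ext i
        fin_cases i
        · show (Finsupp.single (0 : Fin 2) 1 : Fin 2 →₀ ℕ) 0 = m 0
          rw [Finsupp.single_eq_same]
          omega
        · show (Finsupp.single (0 : Fin 2) 1 : Fin 2 →₀ ℕ) 1 = m 1
          rw [show m 1 = 0 by omega]
          simp

end base

variable {K : Type} [Field K] [NumberField K] {Ω : Type} [Field Ω] [IsAlgClosed Ω] [Algebra K Ω]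

theorem main3 {d D : ℕ} (hd : 2 ≤ d) {F c g : Fin 2 → MvPolynomial (Fin 2) K}
    (hF : IsEndo d F) (hc : IsEndo D c) (hg : IsEndo 1 g) :
    EvPer fun n => ∃ x : Fin 2 → Ω, x ≠ 0 ∧ Same (ev c x) ((ev F)^[n] x) ∧
      Same (ev c x) ((ev g)^[n] x) := by
  obtain ⟨a0, b0, h0⟩ := lin_form (hg.1 0)
  obtain ⟨a1, b1, h1⟩ := lin_form (hg.1 1)
  have hev0 : ∀ x : Fin 2 → Ω, ev g x 0 = algebraMap K Ω a0 * x 0 + algebraMap K Ω b0 * x 1 := by
    intro x
    show aeval x (g 0) = _
    rw [h0, map_add, map_mul, map_mul, aeval_C, aeval_C, aeval_X, aeval_X]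
  have hev1 : ∀ x : Fin 2 → Ω, ev g x 1 = algebraMap K Ω a1 * x 0 + algebraMap K Ω b1 * x 1 := by
    intro x
    show aeval x (g 1) = _
    rw [h1, map_add, map_mul, map_mul, aeval_C, aeval_C, aeval_X, aeval_X]
  by_cases ha1 : a1 = 0
  · refine main2 hd hF hc.1 (reg hc) (reg hF) (reg hg) ![0, 1] ![1, 0] ?_ b1 a0 b0 (fun x => ?_)
      fun x => ?_
    · simp [dt]
    · simp only [lv, Matrix.cons_val_zero, Matrix.cons_val_one, map_zero, map_one]
      rw [hev1, ha1, map_zero]
      ring
    · simp only [lv, Matrix.cons_val_zero, Matrix.cons_val_one, map_zero, map_one]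
      rw [hev0]
      ring
  · obtain ⟨s, hs⟩ := IsAlgClosed.exists_pow_nat_eq
      (algebraMap K Ω ((a0 + b1) ^ 2 - 4 * (a0 * b1 - b0 * a1))) (n := 2) two_pos
    have hsi : IsIntegral K s := by
      refine ⟨Polynomial.X ^ 2 - Polynomial.C ((a0 + b1) ^ 2 - 4 * (a0 * b1 - b0 * a1)),
        Polynomial.monic_X_pow_sub_C _ two_ne_zero, ?_⟩
      rw [← Polynomial.aeval_def, map_sub, map_pow, Polynomial.aeval_X, Polynomial.aeval_C, hs, sub_self]
    let K' := IntermediateField.adjoin K {s}
    have hfd : FiniteDimensional K K' := IntermediateField.adjoin.finiteDimensional hsi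
    have hfd2 : FiniteDimensional ℚ K' := FiniteDimensional.trans ℚ K K'
    have : CharZero K' := charZero_of_injective_algebraMap (algebraMap K K').injective
    have hnf : NumberField K' := { }
    set s' : K' := ⟨s, IntermediateField.mem_adjoin_simple_self K s⟩ with hs'
    have hs2 : s' ^ 2 = algebraMap K K' ((a0 + b1) ^ 2 - 4 * (a0 * b1 - b0 * a1)) := by
      apply (algebraMap K' Ω).injective
      rw [map_pow, ← IsScalarTower.algebraMap_apply]
      exact hs
    set i := algebraMap K K' with hi
    have h2 : (2 : K') ≠ 0 := two_ne_zero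
    set μ : K' := (i a0 + i b1 + s') / 2 with hμ
    have hquad : (i a0 - μ) * (i b1 - μ) = i b0 * i a1 := by
      simp only [map_sub, map_pow, map_add, map_mul, map_ofNat] at hs2
      rw [hμ]
      field_simp
      linear_combination hs2
    have hcF : ∀ P : K, algebraMap K' Ω (i P) = algebraMap K Ω P := fun P =>
      (IsScalarTower.algebraMap_apply K K' Ω P).symm
    have hmain := main2 (K := K') (Ω := Ω) (g := fun j => map (algebraMap K K') (g j)) hd (endo_map hF)
      (endo_map (K' := K') hc).1 (reg (endo_map hc)) (reg (endo_map hF)) (reg (endo_map hg))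
      ![i a1, μ - i a0] ![0, 1] (by
        simp only [dt, Matrix.cons_val_zero, Matrix.cons_val_one, mul_one, mul_zero, sub_zero]
        exact (map_ne_zero _).2 ha1) μ (i a0 + i b1 - μ) 1 (fun x => by
          rw [ev_map]
          simp only [lv, Matrix.cons_val_zero, Matrix.cons_val_one, map_sub]
          rw [hev0, hev1]
          have hq := congrArg (algebraMap K' Ω) hquad
          simp only [map_sub, map_mul, hcF] at hq ⊢
          linear_combination (-x 1) * hq) fun x => by
          rw [ev_map]
          simp only [lv, Matrix.cons_val_zero, Matrix.cons_val_one, map_sub, map_add, map_zero, map_one]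
          rw [hev1]
          simp only [hcF]
          ring
    rw [ev_map, ev_map, ev_map] at hmain
    exact hmain

end Pool.Agent.H422.RS
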