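import Mathlib
import Pool.Agent.H422.RS.Main3
import Pool.Agent.H422.SK.Desc
import Pool.Agent.H422.SK.Nss
import Pool.Agent.H422.SK.Core

set_option autoImplicit false

/-!
The bound for forms `p` of any degree.
-/

namespace Pool.Agent.H422.RS

open MvPolynomial Height NumberField

variable {K : Type} [Field K] [NumberField K]

theorem coreM {d D M : ℕ} (hd : 2 ≤ d) {F : Fin 2 → MvPolynomial (Fin 2) K}
    (hF : Pool.Agent.Q170.HG.IsEndo d F) {c p : Fin 2 → MvPolynomial (Fin 2) K}
    (hc : ∀ i, (c i).IsHomogeneous D) (hp : ∀ i, (p i).IsHomogeneous M) (E : ℕ) :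
    ∃ B : ℝ, ∀ (L : Type) [Field L] [NumberField L] [Algebra K L], Module.finrank ℚ L ≤ E →
      ∀ (x : Fin 2 → L) (n : ℕ), 2 * (D + 1) ≤ d ^ n → ev c x ≠ 0 → (ev F)^[n] x ≠ 0 →
        Same (ev c x) ((ev F)^[n] x) → ∀ a : L, ev p x 0 ≠ 0 → a * ev p x 0 = ev p x 1 →
          logHeight₁ a ≤ B := by
  obtain ⟨A1, hA1, h1⟩ := lower hF E
  obtain ⟨A2, hA2, h2⟩ := upper hc E
  obtain ⟨A3, hA3, h3⟩ := upper (p := ![p 1, p 0]) (N := M) (by
    intro i
    fin_cases i
    · exact hp 1
    · exact hp 0) E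
  refine ⟨A3 + M * (2 * (A1 + A2)), fun L _ _ _ hE x n hn hcx hfx hs a h0 ha => ?_⟩
  have hd' : (2 : ℝ) ≤ d := by exact_mod_cast hd
  have hit : ∀ n : ℕ, (d : ℝ) ^ n * (logHeight x - A1) + A1 ≤ logHeight ((ev F)^[n] x) := by
    intro n
    induction n with
    | zero => simp
    | succ n ih =>
      rw [Function.iterate_succ_apply']
      refine le_trans ?_ (h1 L hE _)
      have h4 := mul_le_mul_of_nonneg_left ih (by linarith : (0 : ℝ) ≤ d)
      rw [pow_succ]
      nlinarith
  obtain ⟨t, ht, hcf⟩ := same_smul hcx hfx hs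
  have h5 : logHeight (ev c x) = logHeight ((ev F)^[n] x) := by
    rw [hcf, logHeight_smul_eq_logHeight _ ht]
  have h6 : logHeight (ev c x) ≤ A2 + D * logHeight x := h2 L hE x
  have h7 := hit n
  have h8 : (2 * (D + 1) : ℝ) ≤ (d : ℝ) ^ n := by exact_mod_cast hn
  have h9 : 0 ≤ logHeight x := logHeight_nonneg x
  have h10 : logHeight x ≤ 2 * (A1 + A2) := by
    have hD : (0 : ℝ) ≤ D := Nat.cast_nonneg D
    have h11 : (d : ℝ) ^ n * logHeight x - D * logHeight x ≤ d ^ n * A1 + A2 := by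
      rw [h5] at h6
      nlinarith
    have h12 : (d : ℝ) ^ n / 2 * logHeight x ≤ d ^ n * logHeight x - D * logHeight x := by
      nlinarith
    have h13 : 0 < (d : ℝ) ^ n := by positivity
    have h14 : A2 ≤ d ^ n * A2 := by nlinarith
    have h15 : (d : ℝ) ^ n * (logHeight x / 2) ≤ d ^ n * (A1 + A2) := by nlinarith
    have h16 := le_of_mul_le_mul_left h15 h13
    linarith
  have h11 : a = ev p x 1 / ev p x 0 := by rw [eq_div_iff h0]; exact ha
  rw [h11, logHeight₁_div_eq_logHeight]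
  have h12 := h3 L hE x
  have h13 : (fun j => aeval x ((![p 1, p 0] : Fin 2 → MvPolynomial (Fin 2) K) j)) =
      ![ev p x 1, ev p x 0] := by
    funext j
    fin_cases j <;> rfl
  rw [h13] at h12
  have h14 : (M : ℝ) * logHeight x ≤ M * (2 * (A1 + A2)) :=
    mul_le_mul_of_nonneg_left h10 (by positivity)
  linarith

theorem boundedM {d D M : ℕ} (hd : 2 ≤ d) {F : Fin 2 → MvPolynomial (Fin 2) K}
    (hF : Pool.Agent.Q170.HG.IsEndo d F) {c p : Fin 2 → MvPolynomial (Fin 2) K}
    (hc : ∀ i, (c i).IsHomogeneous D) (hp : ∀ i, (p i).IsHomogeneous M)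
    (Ω : Type) [Field Ω] [Algebra K Ω] (hc0 : ∀ x : Fin 2 → Ω, x ≠ 0 → ev c x ≠ 0)
    (hF0 : ∀ x : Fin 2 → Ω, x ≠ 0 → ev F x ≠ 0) (a : ℕ → K)
    (ha : ∀ B : ℝ, ∃ N : ℕ, ∀ n, N ≤ n → ∀ (L : Type) [Field L] [NumberField L] [Algebra K L],
      B < logHeight₁ (algebraMap K L (a n)))
    (hne : ∃ N : ℕ, ∀ n, N ≤ n → C (a n) * p 0 - p 1 ≠ 0) :
    ∃ N : ℕ, ∀ n, N ≤ n → ∀ x : Fin 2 → Ω, x ≠ 0 → Same (ev c x) ((ev F)^[n] x) →
      algebraMap K Ω (a n) * ev p x 0 = ev p x 1 → ev p x 0 = 0 := by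
  obtain ⟨B, hB⟩ := coreM hd hF hc hp (Module.finrank ℚ K * (M + 1))
  obtain ⟨N1, hN1⟩ := ha B
  obtain ⟨N2, hN2⟩ := hne
  refine ⟨max N1 (max N2 (2 * (D + 1))), fun n hn x hx hs hax => ?_⟩
  have hn1 : N1 ≤ n := (le_max_left _ _).trans hn
  have hn2 : N2 ≤ n := (le_max_left _ _).trans ((le_max_right _ _).trans hn)
  have hn3 : 2 * (D + 1) ≤ n := (le_max_right _ _).trans ((le_max_right _ _).trans hn)
  have hn4 : 2 * (D + 1) ≤ d ^ n := hn3.trans (Nat.lt_pow_self (by omega)).le
  set P := C (a n) * p 0 - p 1 with hP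
  have hPh : P.IsHomogeneous M := by
    refine IsHomogeneous.sub ?_ (hp 1)
    have := (isHomogeneous_C (Fin 2) (a n)).mul (hp 0)
    rwa [zero_add] at this
  obtain ⟨hQ0, hQd⟩ := dehom hPh (hN2 n hn2)
  set Q : Polynomial K := aeval ![1, Polynomial.X] P with hQ
  have hPx : aeval x P = 0 := by
    rw [hP, map_sub, map_mul, aeval_C]
    exact sub_eq_zero.2 hax
  -- the coordinate
  set t : Ω := x 1 / x 0 with ht
  have hint : IsIntegral K t ∧ (minpoly K t).natDegree ≤ M + 1 := by
    by_cases hx0 : x 0 = 0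
    · have : t = algebraMap K Ω 0 := by rw [ht, hx0, div_zero, map_zero]
      rw [this]
      refine ⟨isIntegral_algebraMap, ?_⟩
      rw [minpoly.eq_X_sub_C, Polynomial.natDegree_X_sub_C]
      omega
    · have h1 : Polynomial.aeval t Q = 0 := by
        rw [hQ]
        have h2 : Polynomial.aeval t (aeval ![1, Polynomial.X] P : Polynomial K) =
            aeval ![1, t] P := by
          rw [← AlgHom.comp_apply, comp_aeval]
          congr 2
          funext i
          fin_cases i <;> simp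
        rw [h2]
        have h3 : x = x 0 • ![1, t] := by
          funext i
          fin_cases i
          · simp
          · show x 1 = x 0 * (x 1 / x 0)
            field_simp
        rw [h3, Pool.Agent.H422.SK.aeval_smul_hom hPh] at hPx
        exact (mul_eq_zero.1 hPx).resolve_left (pow_ne_zero _ hx0)
      have h2 : IsAlgebraic K t := ⟨Q, hQ0, h1⟩
      refine ⟨h2.isIntegral, ?_⟩
      exact (Polynomial.natDegree_le_of_dvd (minpoly.dvd K t h1) hQ0).trans (hQd.trans (Nat.le_succ M))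
  obtain ⟨hti, htd⟩ := hint
  let L := IntermediateField.adjoin K {t}
  have hfd : FiniteDimensional K L := IntermediateField.adjoin.finiteDimensional hti
  have hfd2 : FiniteDimensional ℚ L := FiniteDimensional.trans ℚ K L
  have : CharZero L := charZero_of_injective_algebraMap (algebraMap K L).injective
  have hnf : NumberField L := { }
  have hE : Module.finrank ℚ L ≤ Module.finrank ℚ K * (M + 1) := by
    rw [← Module.finrank_mul_finrank ℚ K L, IntermediateField.adjoin.finrank hti]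
    exact Nat.mul_le_mul_left _ htd
  have hy : ∃ y : Fin 2 → L, ∃ s : Ω, s ≠ 0 ∧ x = s • fun i => algebraMap L Ω (y i) := by
    by_cases hx0 : x 0 = 0
    · have hx1 : x 1 ≠ 0 := by
        intro h1
        apply hx
        funext i
        fin_cases i
        · exact hx0
        · exact h1
      refine ⟨![0, 1], x 1, hx1, ?_⟩
      funext i
      fin_cases i
      · simp [hx0]
      · simp
    · refine ⟨![1, ⟨t, IntermediateField.mem_adjoin_simple_self K t⟩], x 0, hx0, ?_⟩
      funext i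
      fin_cases i
      · simp
      · show x 1 = x 0 * (x 1 / x 0)
        field_simp
  obtain ⟨y, s, hs0, hxy⟩ := hy
  by_contra hp0
  obtain ⟨s', hs', hit⟩ := iter_alg (Ω := Ω) hF.1 hs0 y n
  have hinj : Function.Injective (algebraMap L Ω) := (algebraMap L Ω).injective
  have hz : ∀ z : Fin 2 → L, (s • fun i => algebraMap L Ω (z i)) ≠ 0 → z ≠ 0 := by
    rintro z h rfl
    apply h
    funext i
    simp
  have hcy : ev c x = s ^ D • fun i => algebraMap L Ω (ev c y i) := by
    rw [hxy, ev_sm hc, ev_alg]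
  have hpy : ev p x = s ^ M • fun i => algebraMap L Ω (ev p y i) := by
    rw [hxy, ev_sm hp, ev_alg]
  have hFx : ∀ m : ℕ, (ev F)^[m] x ≠ 0 := by
    intro m
    induction m with
    | zero => exact hx
    | succ m ih =>
      rw [Function.iterate_succ_apply']
      exact hF0 _ ih
  have h1 : ev c y ≠ 0 := by
    intro h
    apply hc0 x hx
    rw [hcy, h]
    funext i
    simp
  have h2 : (ev F)^[n] y ≠ 0 := by
    intro h
    apply hFx n
    rw [hxy, hit, h]
    funext i
    simp
  have h3 : Same (ev c y) ((ev F)^[n] y) := by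
    rw [hcy, hxy, hit, same_sm (pow_ne_zero _ hs0) hs'] at hs
    unfold Same at hs ⊢
    apply hinj
    rw [map_mul, map_mul]
    exact hs
  have hp0' : ev p y 0 ≠ 0 := by
    intro h
    apply hp0
    rw [hpy, Pi.smul_apply, h, map_zero, smul_zero]
  have h4 : algebraMap K L (a n) * ev p y 0 = ev p y 1 := by
    rw [hpy] at hax
    simp only [Pi.smul_apply, smul_eq_mul] at hax
    apply hinj
    rw [map_mul, ← IsScalarTower.algebraMap_apply]
    apply mul_left_cancel₀ (pow_ne_zero M hs0)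
    linear_combination hax
  exact absurd (hB L hE y n hn4 h1 h2 h3 _ hp0' h4) (not_le.2 (hN1 n hn1 L))

end Pool.Agent.H422.RS
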