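import Mathlib
import Pool.Agent.H422.RS.Gen

set_option autoImplicit false

/-!
Specialization to a number field.
-/

namespace Pool.Agent.H422.RS

open MvPolynomial Height NumberField

section et

variable {A : Type} [CommRing A]

noncomputable def et {R : Type} [CommRing R] (α : A →+* R) (F : Fin 2 → MvPolynomial (Fin 2) A)
    (y : Fin 2 → R) : Fin 2 → R := fun i => eval₂ α y (F i)

lemma et_map {R S : Type} [CommRing R] [CommRing S] (α : A →+* R) (φ : R →+* S)
    (F : Fin 2 → MvPolynomial (Fin 2) A) (y : Fin 2 → R) :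
    (fun i => φ (et α F y i)) = et (φ.comp α) F (fun i => φ (y i)) := by
  funext i
  exact eval₂_comp_left φ α y (F i)

lemma et_iter {R S : Type} [CommRing R] [CommRing S] (α : A →+* R) (φ : R →+* S)
    (F : Fin 2 → MvPolynomial (Fin 2) A) (y : Fin 2 → R) (n : ℕ) :
    (fun i => φ ((et α F)^[n] y i)) = (et (φ.comp α) F)^[n] (fun i => φ (y i)) := by
  induction n with
  | zero => rfl
  | succ n ih =>
    rw [Function.iterate_succ_apply', Function.iterate_succ_apply', ← ih, ← et_map]

lemma et_ev {K Ω : Type} [Field K] [Field Ω] [Algebra K Ω] (β : A →+* K)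
    (F : Fin 2 → MvPolynomial (Fin 2) A) :
    (ev (fun i => map β (F i)) : (Fin 2 → Ω) → _) = et ((algebraMap K Ω).comp β) F := by
  funext x i
  rw [ev, et, aeval_def, eval₂_map]

end et

variable {Ω : Type} [Field Ω]

/-- a point is reduced -/
lemma red (B : ValuationSubring Ω) (x : Fin 2 → Ω) (hx : x ≠ 0) :
    ∃ (s : Ω) (y : Fin 2 → B), s ≠ 0 ∧ (fun i => IsLocalRing.residue B (y i)) ≠ 0 ∧
      x = s • fun i => (y i : Ω) := by
  by_cases h1 : x 1 = 0
  · have h0 : x 0 ≠ 0 := fun h0 => hx (by
      funext i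
      fin_cases i
      · exact h0
      · exact h1)
    refine ⟨x 0, ![1, 0], h0, fun h => ?_, ?_⟩
    · have := congrFun h 0
      simp at this
    · funext i
      fin_cases i
      · simp
      · simp [h1]
  · by_cases h0 : x 0 = 0
    · refine ⟨x 1, ![0, 1], h1, fun h => ?_, ?_⟩
      · have := congrFun h 1
        simp at this
      · funext i
        fin_cases i
        · simp [h0]
        · simp
    · rcases B.mem_or_inv_mem (x 0 / x 1) with h | h
      · refine ⟨x 1, ![⟨x 0 / x 1, h⟩, 1], h1, fun h => ?_, ?_⟩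
        · have := congrFun h 1
          simp at this
        · funext i
          fin_cases i
          · show x 0 = x 1 * (x 0 / x 1)
            field_simp
          · simp
      · rw [inv_div] at h
        refine ⟨x 0, ![1, ⟨x 1 / x 0, h⟩], h0, fun h => ?_, ?_⟩
        · have := congrFun h 0
          simp at this
        · funext i
          fin_cases i
          · simp
          · show x 1 = x 0 * (x 1 / x 0)
            field_simp

lemma residue_data {A₀ : Subring Ω} {K : Type} [Field K] (β : A₀ →+* K) (hβ : Function.Surjective β) :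
    ∃ (B : ValuationSubring Ω) (ι : A₀ →+* B) (θ : K →+* IsLocalRing.ResidueField B),
      (∀ a, (ι a : Ω) = a) ∧ ∀ a, θ (β a) = IsLocalRing.residue B (ι a) := by
  have hne : RingHom.ker β ≠ ⊤ := RingHom.ker_ne_top β
  obtain ⟨B, hB, hn⟩ := Ideal.image_subset_nonunits_valuationSubring (RingHom.ker β) hne
  let ι : A₀ →+* B := Subring.inclusion hB
  have hι : ∀ a, (ι a : Ω) = a := fun a => rfl
  let ρ : A₀ →+* IsLocalRing.ResidueField B := (IsLocalRing.residue B).comp ι
  have hρ : ∀ a ∈ RingHom.ker β, ρ a = 0 := by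
    intro a ha
    show IsLocalRing.residue B (ι a) = 0
    rw [IsLocalRing.residue_eq_zero_iff, ← ValuationSubring.coe_mem_nonunits_iff]
    exact hn ⟨a, ha, rfl⟩
  let e := RingHom.quotientKerEquivOfSurjective hβ
  let θ : K →+* IsLocalRing.ResidueField B :=
    (Ideal.Quotient.lift (RingHom.ker β) ρ hρ).comp (e.symm : K →+* A₀ ⧸ RingHom.ker β)
  refine ⟨B, ι, θ, hι, fun a => ?_⟩
  show Ideal.Quotient.lift (RingHom.ker β) ρ hρ (e.symm (β a)) = _
  have h1 : e.symm (β a) = Ideal.Quotient.mk _ a := by
    rw [RingEquiv.symm_apply_eq]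
    rfl
  rw [h1, Ideal.Quotient.lift_mk]
  rfl

end Pool.Agent.H422.RS
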