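import Mathlib
import Pool.Agent.H422.RS.Spec

set_option autoImplicit false

/-!
The specialization.
-/

namespace Pool.Agent.H422.RS

open MvPolynomial Height NumberField
open Pool.Agent.H422.SK (evr)

variable {Ω : Type} [Field Ω]

lemma residue_data' [CharZero Ω] {A₀ : Subalgebra ℚ Ω} {K : Type} [Field K] (β : A₀ →+* K)
    (hβ : Function.Surjective β) :
    ∃ (B : ValuationSubring Ω) (ι : A₀ →+* B) (θ : K →+* IsLocalRing.ResidueField B),
      (∀ a, (ι a : Ω) = a) ∧ ∀ a, θ (β a) = IsLocalRing.residue B (ι a) :=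
  residue_data (A₀ := A₀.toSubring) β hβ

noncomputable def sqm (R : Type) [CommRing R] : Fin 2 → MvPolynomial (Fin 2) R := ![X 0 ^ 2, X 1 ^ 2]

lemma sqm_iter {R : Type} [CommRing R] (l : R) (n : ℕ) :
    (evr (sqm R))^[n] ![1, l] = ![1, l ^ 2 ^ n] := by
  induction n with
  | zero => simp
  | succ n ih =>
    rw [Function.iterate_succ_apply', ih]
    funext i
    fin_cases i
    · show eval _ (X 0 ^ 2 : MvPolynomial (Fin 2) R) = 1
      simp
    · show eval _ (X 1 ^ 2 : MvPolynomial (Fin 2) R) = l ^ 2 ^ (n + 1)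
      simp [pow_succ, pow_mul]

theorem spec_data [CharZero Ω] [IsAlgClosed Ω] (S : Finset Ω) (A₀ : Subalgebra ℚ Ω)
    (hA₀ : A₀ = Algebra.adjoin ℚ (S : Set Ω)) (l : A₀) (hl0 : l ≠ 0)
    (hl : ∀ n : ℕ, 0 < n → l ^ n ≠ 1) :
    ∃ (K : Type) (_ : Field K) (_ : NumberField K) (β : A₀ →+* K), Function.Surjective β ∧ β l ≠ 0 ∧
      ∀ n : ℕ, 0 < n → β l ^ n ≠ 1 := by
  have hinj : ∀ i j : ℕ, i < j → l ^ 2 ^ i ≠ l ^ 2 ^ j := by
    intro i j hij h
    have h1 : 2 ^ i < 2 ^ j := Nat.pow_lt_pow_right (by norm_num) hij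
    apply hl (2 ^ j - 2 ^ i) (by omega)
    apply mul_left_cancel₀ (pow_ne_zero (2 ^ i) hl0)
    rw [← pow_add, mul_one, h]
    congr 1
    omega
  obtain ⟨k, hk1, hk2, β, hβ⟩ := Pool.Agent.H422.SK.spec_hom S A₀ hA₀ (d := 2) le_rfl (sqm A₀) (by
      intro i
      fin_cases i
      · exact isHomogeneous_X_pow 0 2
      · exact isHomogeneous_X_pow 1 2) (fun _ => 2) (fun k j => if k = j then 1 else 0) (by
      intro k
      fin_cases k <;> simp [sqm]) ![1, l] 0 rfl (by
      intro i j hij c h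
      rw [sqm_iter, sqm_iter] at h
      have h0 := congrFun h 0
      have h1 := congrFun h 1
      simp only [Matrix.cons_val_zero, Matrix.cons_val_one, Pi.smul_apply, smul_eq_mul, map_one,
        mul_one] at h0 h1
      rw [← h0, one_mul] at h1
      have h2 : l ^ 2 ^ i = l ^ 2 ^ j := (FaithfulSMul.algebraMap_injective A₀ Ω) h1
      rcases Nat.lt_or_gt_of_ne hij with h3 | h3
      · exact hinj i j h3 h2
      · exact hinj j i h3 h2.symm)
  have hpow : ∀ i j : ℕ, i ≠ j → β l ^ 2 ^ i ≠ β l ^ 2 ^ j := by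
    intro i j hij h
    apply hβ i j hij 1
    rw [sqm_iter, sqm_iter, one_smul]
    funext a
    fin_cases a
    · rfl
    · show β (l ^ 2 ^ i) = β (l ^ 2 ^ j)
      rw [map_pow, map_pow, h]
  have hb0 : β l ≠ 0 := by
    intro h
    apply hpow 0 1 (by norm_num)
    rw [h, zero_pow (by norm_num), zero_pow (by norm_num)]
  have hb1 : ∀ n : ℕ, 0 < n → β l ^ n ≠ 1 := by
    intro n hn h
    obtain ⟨i, j, hij, he⟩ := Finite.exists_ne_map_eq_of_infinite
      (fun i : ℕ => (⟨2 ^ i % n, Nat.mod_lt _ hn⟩ : Fin n))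
    have he' : 2 ^ i % n = 2 ^ j % n := congrArg Fin.val he
    apply hpow i j hij
    have key : ∀ m : ℕ, β l ^ m = β l ^ (m % n) := by
      intro m
      conv_lhs => rw [← Nat.mod_add_div m n, pow_add, pow_mul, h, one_pow, mul_one]
    rw [key, he', ← key]
  -- the image
  let R0 : Subalgebra ℚ k := (RingHom.toRatAlgHom β).range
  let K : IntermediateField ℚ k := Algebra.IsAlgebraic.toIntermediateField R0
  have hmem : ∀ a, β a ∈ K := fun a => (⟨a, rfl⟩ : (RingHom.toRatAlgHom β) a ∈ (RingHom.toRatAlgHom β).range)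
  let β' : A₀ →+* K := β.codRestrict K hmem
  have hval : ∀ a, ((β' a : K) : k) = β a := fun a => rfl
  have hnf : NumberField K := { }
  refine ⟨K, inferInstance, hnf, β', ?_, ?_, ?_⟩
  · rintro ⟨y, hy⟩
    obtain ⟨a, ha⟩ := hy
    exact ⟨a, Subtype.ext ha⟩
  · intro h
    apply hb0
    rw [← hval, h]
    rfl
  · intro n hn h
    apply hb1 n hn
    have h1 := congrArg (fun z : K => (z : k)) h
    exact h1

end Pool.Agent.H422.RS
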