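import Mathlib
import Pool.Agent.H422.RS.Spec2

set_option autoImplicit false

/-!
The bound over any algebraically closed field of characteristic zero.
-/

namespace Pool.Agent.H422.RS

open MvPolynomial Height NumberField
open Pool.Agent.Q170.HG (IsEndo)

section lifts

variable {Ω : Type} [Field Ω]

open Classical in
noncomputable def fam (G : Fin 2 → MvPolynomial (Fin 2) Ω) : Finset Ω :=
  Finset.univ.biUnion fun i => (G i).coeffs

open Classical in
noncomputable def fam2 (G : Fin 2 → Fin 2 → MvPolynomial (Fin 2) Ω) : Finset Ω :=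
  Finset.univ.biUnion fun i => fam (G i)

variable [CharZero Ω]

lemma lift_fam {A₀ : Subalgebra ℚ Ω} (G : Fin 2 → MvPolynomial (Fin 2) Ω) (h : ∀ x ∈ fam G, x ∈ A₀) :
    ∃ G' : Fin 2 → MvPolynomial (Fin 2) A₀, ∀ i, map (algebraMap A₀ Ω) (G' i) = G i := by
  classical
  have h1 : ∀ i, ∃ p' : MvPolynomial (Fin 2) A₀, map (algebraMap A₀ Ω) p' = G i := fun i =>
    Pool.Agent.H422.SK.lift_mv (G i) fun x hx => h x (Finset.mem_biUnion.2 ⟨i, Finset.mem_univ i, hx⟩)
  choose G' hG' using h1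
  exact ⟨G', hG'⟩

lemma lift_fam2 {A₀ : Subalgebra ℚ Ω} (G : Fin 2 → Fin 2 → MvPolynomial (Fin 2) Ω)
    (h : ∀ x ∈ fam2 G, x ∈ A₀) :
    ∃ G' : Fin 2 → Fin 2 → MvPolynomial (Fin 2) A₀, ∀ k i, map (algebraMap A₀ Ω) (G' k i) = G k i := by
  classical
  have h1 : ∀ k, ∃ G' : Fin 2 → MvPolynomial (Fin 2) A₀, ∀ i, map (algebraMap A₀ Ω) (G' i) = G k i :=
    fun k => lift_fam (G k) fun x hx => h x (Finset.mem_biUnion.2 ⟨k, Finset.mem_univ k, hx⟩)
  choose G' hG' using h1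
  exact ⟨G', hG'⟩

lemma cert_lift {A₀ : Subalgebra ℚ Ω} {G : Fin 2 → MvPolynomial (Fin 2) Ω}
    {q : Fin 2 → Fin 2 → MvPolynomial (Fin 2) Ω} {m : Fin 2 → ℕ} (h : ∀ k, ∑ j, q k j * G j = X k ^ m k)
    {G' : Fin 2 → MvPolynomial (Fin 2) A₀} (hG : ∀ i, map (algebraMap A₀ Ω) (G' i) = G i)
    {q' : Fin 2 → Fin 2 → MvPolynomial (Fin 2) A₀} (hq : ∀ k i, map (algebraMap A₀ Ω) (q' k i) = q k i)
    (k : Fin 2) : ∑ j, q' k j * G' j = X k ^ m k := by
  apply map_injective (algebraMap A₀ Ω) (FaithfulSMul.algebraMap_injective A₀ Ω)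
  rw [map_sum, map_pow, map_X, ← h k]
  exact Finset.sum_congr rfl fun j _ => by rw [map_mul, hG, hq]

end lifts

lemma reg_cert {A : Type} [CommRing A] {G : Fin 2 → MvPolynomial (Fin 2) A}
    {q : Fin 2 → Fin 2 → MvPolynomial (Fin 2) A} {m : Fin 2 → ℕ} (h : ∀ k, ∑ j, q k j * G j = X k ^ m k)
    {L : Type} [Field L] (α : A →+* L) (y : Fin 2 → L) (hy : ∀ i, eval₂ α y (G i) = 0) : y = 0 := by
  funext k
  have h1 := congrArg (eval₂ α y) (h k)
  rw [eval₂_sum, eval₂_pow, eval₂_X, Finset.sum_eq_zero] at h1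
  · exact eq_zero_of_pow_eq_zero h1.symm
  · intro j _
    rw [eval₂_mul, hy, mul_zero]

lemma hne_lemma {K : Type} [Field K] {p : Fin 2 → MvPolynomial (Fin 2) K} (hpne : ¬ (p 0 = 0 ∧ p 1 = 0))
    {a : ℕ → K} (hinj : Function.Injective a) : ∃ N : ℕ, ∀ n, N ≤ n → C (a n) * p 0 - p 1 ≠ 0 := by
  by_cases h0 : ∃ m, C (a m) * p 0 - p 1 = 0
  · obtain ⟨m, hm⟩ := h0
    have hp0 : p 0 ≠ 0 := by
      intro h
      apply hpne
      rw [h, mul_zero, zero_sub, neg_eq_zero] at hm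
      exact ⟨h, hm⟩
    refine ⟨m + 1, fun n hn h => ?_⟩
    have h1 : C (a n - a m) * p 0 = 0 := by
      rw [C_sub]
      linear_combination h - hm
    rcases mul_eq_zero.1 h1 with h2 | h2
    · have h3 : a n = a m := sub_eq_zero.1 (C_eq_zero.1 h2)
      have := hinj h3
      omega
    · exact hp0 h2
  · exact ⟨0, fun n _ h => h0 ⟨n, h⟩⟩

lemma pow_inj {K : Type} [Field K] {l : K} (hl0 : l ≠ 0) (hl : ∀ n : ℕ, 0 < n → l ^ n ≠ 1) :
    Function.Injective fun n : ℕ => l ^ n := by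
  intro n m h
  by_contra hne
  have key : ∀ n m : ℕ, n < m → l ^ n = l ^ m → False := by
    intro n m hnm h
    apply hl (m - n) (by omega)
    apply mul_left_cancel₀ (pow_ne_zero n hl0)
    rw [← pow_add, mul_one, h]
    congr 1
    omega
  rcases Nat.lt_or_gt_of_ne hne with h1 | h1
  · exact key n m h1 h
  · exact key m n h1 h.symm

lemma height_pow {K : Type} [Field K] [NumberField K] {l : K} (hl0 : l ≠ 0)
    (hl : ∀ n : ℕ, 0 < n → l ^ n ≠ 1) (B : ℝ) : ∃ N : ℕ, ∀ n, N ≤ n → ∀ (L : Type) [Field L]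
      [NumberField L] [Algebra K L], B < logHeight₁ (algebraMap K L (l ^ n)) := by
  obtain ⟨κ', hκ, h⟩ := height_pos hl0 hl
  obtain ⟨N, hN⟩ := exists_nat_gt (B / κ')
  refine ⟨N, fun n hn L _ _ _ => ?_⟩
  rw [map_pow, logHeight₁_pow]
  have h1 := h L
  have h2 : (N : ℝ) ≤ n := by exact_mod_cast hn
  have h3 : B < N * κ' := (div_lt_iff₀ hκ).1 hN
  have h4 : (N : ℝ) * κ' ≤ n * κ' := mul_le_mul_of_nonneg_right h2 hκ.le
  have h5 : (n : ℝ) * κ' ≤ n * logHeight₁ (algebraMap K L l) :=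
    mul_le_mul_of_nonneg_left h1 (Nat.cast_nonneg n)
  linarith

lemma height_cast {K : Type} [Field K] [NumberField K] (B : ℝ) : ∃ N : ℕ, ∀ n, N ≤ n → ∀ (L : Type)
      [Field L] [NumberField L] [Algebra K L], B < logHeight₁ (algebraMap K L (n : K)) := by
  obtain ⟨N, hN⟩ := exists_nat_gt (Real.exp B)
  refine ⟨N, fun n hn L _ _ _ => ?_⟩
  rw [map_natCast]
  have hn0 : n ≠ 0 := by
    rintro rfl
    have : N = 0 := Nat.le_zero.1 hn
    rw [this, Nat.cast_zero] at hN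
    exact absurd hN (not_lt.2 (Real.exp_pos B).le)
  refine lt_of_lt_of_le ?_ (height_nat hn0)
  rw [Real.lt_log_iff_exp_lt (by exact_mod_cast Nat.pos_of_ne_zero hn0)]
  have h2 : (N : ℝ) ≤ n := by exact_mod_cast hn
  linarith

variable {Ω : Type} [Field Ω] [CharZero Ω] [IsAlgClosed Ω]

theorem bounded_any {d D M : ℕ} (hd : 2 ≤ d)
    {F c p : Fin 2 → MvPolynomial (Fin 2) Ω} (hF : ∀ i, (F i).IsHomogeneous d)
    (hc : ∀ i, (c i).IsHomogeneous D) (hp : ∀ i, (p i).IsHomogeneous M)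
    (hF0 : ∀ x : Fin 2 → Ω, (∀ i, eval x (F i) = 0) → x = 0)
    (hc0 : ∀ x : Fin 2 → Ω, (∀ i, eval x (c i) = 0) → x = 0)
    (hp0 : ∀ x : Fin 2 → Ω, (∀ i, eval x (p i) = 0) → x = 0) (a : ℕ → Ω)
    (ha : (∃ l : Ω, l ≠ 0 ∧ (∀ n : ℕ, 0 < n → l ^ n ≠ 1) ∧ ∀ n, a n = l ^ n) ∨ ∀ n : ℕ, a n = n) :
    ∃ N : ℕ, ∀ n, N ≤ n → ∀ x : Fin 2 → Ω, x ≠ 0 → Same (ev c x) ((ev F)^[n] x) →
      a n * ev p x 0 = ev p x 1 → False := by
  classical
  obtain ⟨l, hl0, hl1, hform⟩ : ∃ l : Ω, l ≠ 0 ∧ (∀ n : ℕ, 0 < n → l ^ n ≠ 1) ∧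
      ((∀ n, a n = l ^ n) ∨ ∀ n : ℕ, a n = n) := by
    rcases ha with ⟨l, h1, h2, h3⟩ | h
    · exact ⟨l, h1, h2, Or.inl h3⟩
    · refine ⟨2, two_ne_zero, fun n hn h => ?_, Or.inr h⟩
      have h1 : (2 ^ n : ℕ) = 1 := by exact_mod_cast h
      have h2 := Nat.one_lt_two_pow hn.ne'
      omega
  obtain ⟨mF, qF, eF⟩ := Pool.Agent.H422.SK.cert_forms F hF0
  obtain ⟨mc, qc, ec⟩ := Pool.Agent.H422.SK.cert_forms c hc0
  obtain ⟨mp, qp, ep⟩ := Pool.Agent.H422.SK.cert_forms p hp0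
  obtain ⟨S, hS⟩ : ∃ S : Finset Ω, S = fam F ∪ (fam c ∪ (fam p ∪ (fam2 qF ∪ (fam2 qc ∪
    (fam2 qp ∪ {l}))))) := ⟨_, rfl⟩
  obtain ⟨A₀, hA₀⟩ : ∃ A₀ : Subalgebra ℚ Ω, A₀ = Algebra.adjoin ℚ (S : Set Ω) := ⟨_, rfl⟩
  have hsub : ∀ x ∈ S, x ∈ A₀ := fun x hx => by
    rw [hA₀]
    exact Algebra.subset_adjoin hx
  have hinj : Function.Injective (algebraMap A₀ Ω) := FaithfulSMul.algebraMap_injective A₀ Ω
  simp only [hS, Finset.mem_union, Finset.mem_singleton] at hsub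
  obtain ⟨F', hF'⟩ := lift_fam (A₀ := A₀) F fun x hx => hsub x (by tauto)
  obtain ⟨c', hc'⟩ := lift_fam (A₀ := A₀) c fun x hx => hsub x (by tauto)
  obtain ⟨p', hp'⟩ := lift_fam (A₀ := A₀) p fun x hx => hsub x (by tauto)
  obtain ⟨qF', hqF'⟩ := lift_fam2 (A₀ := A₀) qF fun x hx => hsub x (by tauto)
  obtain ⟨qc', hqc'⟩ := lift_fam2 (A₀ := A₀) qc fun x hx => hsub x (by tauto)
  obtain ⟨qp', hqp'⟩ := lift_fam2 (A₀ := A₀) qp fun x hx => hsub x (by tauto)
  obtain ⟨l', hl'⟩ : ∃ l' : A₀, algebraMap A₀ Ω l' = l := ⟨⟨l, hsub l (by tauto)⟩, rfl⟩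
  have EF := cert_lift eF hF' hqF'
  have Ec := cert_lift ec hc' hqc'
  have Ep := cert_lift ep hp' hqp'
  have hFh : ∀ i, (F' i).IsHomogeneous d := fun i => IsHomogeneous.of_map hinj (by rw [hF']; exact hF i)
  have hch : ∀ i, (c' i).IsHomogeneous D := fun i => IsHomogeneous.of_map hinj (by rw [hc']; exact hc i)
  have hph : ∀ i, (p' i).IsHomogeneous M := fun i => IsHomogeneous.of_map hinj (by rw [hp']; exact hp i)
  obtain ⟨K, hK1, hK2, β, hβs, hβ0, hβ1⟩ := spec_data S A₀ hA₀ l'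
    (by rintro rfl; apply hl0; rw [← hl', map_zero])
    (fun n hn h => hl1 n hn (by rw [← hl', ← map_pow, h, map_one]))
  obtain ⟨a', ha', hainj, hah⟩ : ∃ a' : ℕ → A₀, (∀ n, algebraMap A₀ Ω (a' n) = a n) ∧
      Function.Injective (fun n => β (a' n)) ∧ ∀ B : ℝ, ∃ N : ℕ, ∀ n, N ≤ n → ∀ (L : Type) [Field L]
        [NumberField L] [Algebra K L], B < logHeight₁ (algebraMap K L (β (a' n))) := by
    rcases hform with h | h
    · refine ⟨fun n => l' ^ n, fun n => ?_, ?_, fun B => ?_⟩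
      · rw [h, map_pow, hl']
      · simp only [map_pow]
        exact pow_inj hβ0 hβ1
      · simp only [map_pow β]
        exact height_pow hβ0 hβ1 B
    · refine ⟨fun n => (n : A₀), fun n => ?_, ?_, fun B => ?_⟩
      · rw [h, map_natCast]
      · simp only [map_natCast]
        exact Nat.cast_injective
      · simp only [map_natCast β]
        exact height_cast B
  obtain ⟨B, ι, θ, hι, hθ⟩ := residue_data' β hβs
  let _ : Algebra K (IsLocalRing.ResidueField B) := θ.toAlgebra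
  have hreg : ∀ {G' : Fin 2 → MvPolynomial (Fin 2) A₀} {q' : Fin 2 → Fin 2 → MvPolynomial (Fin 2) A₀}
      {m : Fin 2 → ℕ} (_ : ∀ k, ∑ j, q' k j * G' j = X k ^ m k) {L : Type} [Field L] [Algebra K L]
      (x : Fin 2 → L), x ≠ 0 → ev (fun i => map β (G' i)) x ≠ 0 := by
    intro G' q' m h L _ _ x hx h0
    apply hx
    apply reg_cert h ((algebraMap K L).comp β) x
    intro i
    have h1 := congrFun h0 i
    rw [et_ev] at h1
    exact h1
  have hF₁ : IsEndo d fun i => map β (F' i) := by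
    refine ⟨fun i => (hFh i).map β, fun x hx => ?_⟩
    by_contra hx0
    exact hreg EF x hx0 (funext hx)
  have hpne : ¬ (map β (p' 0) = 0 ∧ map β (p' 1) = 0) := by
    rintro ⟨h1, h2⟩
    have hx : (![1, 0] : Fin 2 → K) ≠ 0 := by
      intro h0
      have := congrFun h0 0
      simp at this
    apply hreg Ep (L := K) _ hx
    funext i
    fin_cases i
    · show aeval _ (map β (p' 0)) = 0
      rw [h1, map_zero]
    · show aeval _ (map β (p' 1)) = 0
      rw [h2, map_zero]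
  obtain ⟨N, hN⟩ := boundedM (p := fun i => map β (p' i)) hd hF₁ (fun i => (hch i).map β)
    (fun i => (hph i).map β) (IsLocalRing.ResidueField B) (fun x hx => hreg Ec x hx)
    (fun x hx => hreg EF x hx) (fun n => β (a' n)) hah
    (hne_lemma (p := fun i => map β (p' i)) hpne hainj)
  refine ⟨N, fun n hn x hx hs hax => ?_⟩
  obtain ⟨s, y, hs0, hyr, hxy⟩ := red B x hx
  set z : Fin 2 → Ω := fun i => (y i : Ω) with hz
  obtain ⟨s', hs', hit⟩ := iter_alg (K := Ω) (L := Ω) (Ω := Ω) hF hs0 z n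
  have hid : (fun i => algebraMap Ω Ω (z i)) = z := rfl
  have hid2 : (fun i => algebraMap Ω Ω ((ev F)^[n] z i)) = (ev F)^[n] z := rfl
  rw [hid, hid2] at hit
  have hs1 : Same (ev c z) ((ev F)^[n] z) := by
    rw [hxy, hit, ev_sm hc, same_sm (pow_ne_zero _ hs0) hs'] at hs
    exact hs
  have hax1 : a n * ev p z 0 = ev p z 1 := by
    rw [hxy, ev_sm hp, Pi.smul_apply, Pi.smul_apply, smul_eq_mul, smul_eq_mul] at hax
    apply mul_left_cancel₀ (pow_ne_zero M hs0)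
    linear_combination hax
  -- over the valuation ring
  let σ : B →+* Ω := B.subtype
  have hσι : σ.comp ι = algebraMap A₀ Ω := RingHom.ext hι
  have hσi : Function.Injective σ := Subtype.val_injective
  have hevΩ : ∀ {G : Fin 2 → MvPolynomial (Fin 2) Ω} {G' : Fin 2 → MvPolynomial (Fin 2) A₀},
      (∀ i, map (algebraMap A₀ Ω) (G' i) = G i) → (ev G : (Fin 2 → Ω) → _) = et (σ.comp ι) G' := by
    intro G G' h
    have h1 : G = fun i => map (algebraMap A₀ Ω) (G' i) := funext fun i => (h i).symm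
    rw [h1, et_ev, hσι]
    rfl
  have hc1 : ev c z = fun i => σ (et ι c' y i) := by rw [hevΩ hc', et_map]; rfl
  have hp1 : ev p z = fun i => σ (et ι p' y i) := by rw [hevΩ hp', et_map]; rfl
  have hF1 : (ev F)^[n] z = fun i => σ ((et ι F')^[n] y i) := by rw [hevΩ hF', et_iter]; rfl
  have hs2 : et ι c' y 0 * (et ι F')^[n] y 1 = et ι c' y 1 * (et ι F')^[n] y 0 := by
    apply hσi
    rw [map_mul, map_mul]
    rw [hc1, hF1] at hs1
    exact hs1
  have hax2 : ι (a' n) * et ι p' y 0 = et ι p' y 1 := by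
    apply hσi
    rw [map_mul]
    rw [hp1] at hax1
    have h1 : σ (ι (a' n)) = a n := by
      rw [← ha']
      exact hι _
    rw [h1]
    exact hax1
  -- reduction
  set π := IsLocalRing.residue B with hπ
  have hθβ : (algebraMap K (IsLocalRing.ResidueField B)).comp β = π.comp ι := RingHom.ext hθ
  set w : Fin 2 → IsLocalRing.ResidueField B := fun i => π (y i) with hw
  have hevκ : ∀ G' : Fin 2 → MvPolynomial (Fin 2) A₀,
      (ev (fun i => map β (G' i)) : (Fin 2 → IsLocalRing.ResidueField B) → _) = et (π.comp ι) G' := by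
    intro G'
    rw [et_ev, hθβ]
  have hc2 : ev (fun i => map β (c' i)) w = fun i => π (et ι c' y i) := by rw [hevκ, et_map]
  have hp2 : ev (fun i => map β (p' i)) w = fun i => π (et ι p' y i) := by rw [hevκ, et_map]
  have hF2 : (ev (fun i => map β (F' i)))^[n] w = fun i => π ((et ι F')^[n] y i) := by
    rw [hevκ, et_iter]
  have hs3 : Same (ev (fun i => map β (c' i)) w) ((ev (fun i => map β (F' i)))^[n] w) := by
    rw [hc2, hF2]
    have := congrArg π hs2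
    rw [map_mul, map_mul] at this
    exact this
  have hax3 : algebraMap K (IsLocalRing.ResidueField B) (β (a' n)) * ev (fun i => map β (p' i)) w 0 =
      ev (fun i => map β (p' i)) w 1 := by
    rw [hp2]
    have := congrArg π hax2
    rw [map_mul, ← hθ] at this
    exact this
  have h5 := hN n hn w hyr hs3 hax3
  apply hreg Ep w hyr
  funext i
  fin_cases i
  · exact h5
  · show ev (fun i => map β (p' i)) w 1 = 0
    rw [← hax3, h5, mul_zero]

end Pool.Agent.H422.RS
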