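import Mathlib
import Pool.Agent.H422.RS.BAny

set_option autoImplicit false

/-!
Recurrence sets over algebraically closed fields of characteristic zero.
-/

namespace Pool.Agent.H422.RS

open MvPolynomial Height NumberField
open Pool.Agent.H422.SK (EvPer)

section coprime

variable {Ω : Type} [Field Ω]

noncomputable def lf (y : Fin 2 → Ω) : MvPolynomial (Fin 2) Ω := C (y 1) * X 0 - C (y 0) * X 1

lemma lf_hom (y : Fin 2 → Ω) : (lf y).IsHomogeneous 1 := by
  have h1 := (isHomogeneous_C (Fin 2) (y 1)).mul (isHomogeneous_X Ω (0 : Fin 2))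
  have h2 := (isHomogeneous_C (Fin 2) (y 0)).mul (isHomogeneous_X Ω (1 : Fin 2))
  rw [zero_add] at h1 h2
  exact h1.sub h2

lemma lf_dvd {N : ℕ} {H : MvPolynomial (Fin 2) Ω} (hH : H.IsHomogeneous N) {y : Fin 2 → Ω} (hy : y ≠ 0)
    (h : eval y H = 0) : lf y ∣ H := by
  obtain ⟨j, hj⟩ : ∃ j, y j ≠ 0 := by
    by_contra hno
    push Not at hno
    exact hy (funext hno)
  rw [← Ideal.mem_span_singleton, ← Ideal.Quotient.eq_zero_iff_mem]
  set φ := Ideal.Quotient.mkₐ Ω (Ideal.span {lf y}) with hφ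
  have hφL : φ (lf y) = 0 := Ideal.Quotient.eq_zero_iff_mem.2 (Ideal.mem_span_singleton_self _)
  have hX : ∀ i, φ (X i) = φ (X j) * algebraMap Ω _ (y i / y j) := by
    intro i
    rw [← AlgHom.commutes φ, ← map_mul, ← sub_eq_zero, ← map_sub, MvPolynomial.algebraMap_eq]
    have key : ∀ (a : Ω) (P : MvPolynomial (Fin 2) Ω), P = C a * lf y → φ P = 0 := by
      rintro a P rfl
      rw [map_mul, hφL, mul_zero]
    fin_cases j <;> fin_cases i
    · apply key 0
      have h1 : y 0 ≠ 0 := hj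
      show X 0 - X 0 * C (y 0 / y 0) = _
      rw [div_self h1]
      simp
    · apply key (-(y 0)⁻¹)
      have h1 : y 0 ≠ 0 := hj
      show X 1 - X 0 * C (y 1 / y 0) = _
      have h2 : (C (-(y 0)⁻¹) * lf y : MvPolynomial (Fin 2) Ω) =
          C (-(y 0)⁻¹ * y 1) * X 0 - C (-(y 0)⁻¹ * y 0) * X 1 := by
        rw [lf, C_mul, C_mul]
        ring
      have h3 : -(y 0)⁻¹ * y 0 = -1 := by field_simp
      have h4 : -(y 0)⁻¹ * y 1 = -(y 1 / y 0) := by field_simp
      rw [h2, h3, h4, C_neg, C_neg, C_1]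
      ring
    · apply key (y 1)⁻¹
      have h1 : y 1 ≠ 0 := hj
      show X 0 - X 1 * C (y 0 / y 1) = _
      have h2 : (C (y 1)⁻¹ * lf y : MvPolynomial (Fin 2) Ω) =
          C ((y 1)⁻¹ * y 1) * X 0 - C ((y 1)⁻¹ * y 0) * X 1 := by
        rw [lf, C_mul, C_mul]
        ring
      have h3 : (y 1)⁻¹ * y 1 = 1 := by field_simp
      have h4 : (y 1)⁻¹ * y 0 = y 0 / y 1 := by field_simp
      rw [h2, h3, h4, C_1]
      ring
    · apply key 0
      have h1 : y 1 ≠ 0 := hj
      show X 1 - X 1 * C (y 1 / y 1) = _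
      rw [div_self h1]
      simp
  have h1 : φ H = aeval (φ (X j) • fun i => algebraMap Ω _ (y i / y j)) H := by
    conv_lhs => rw [MvPolynomial.aeval_unique φ]
    congr 2
    funext i
    exact hX i
  show φ H = 0
  rw [h1, Pool.Agent.H422.SK.aeval_smul_hom hH]
  have h2 : aeval (fun i => algebraMap Ω (MvPolynomial (Fin 2) Ω ⧸ Ideal.span {lf y}) (y i / y j)) H =
      algebraMap Ω _ (aeval (fun i => y i / y j) H) := aeval_algebraMap_apply _ _ H
  have h3 : aeval ((y j)⁻¹ • y) H = 0 := by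
    rw [Pool.Agent.H422.SK.aeval_smul_hom hH, ← coe_aeval_eq_eval] at *
    rw [show aeval y H = 0 from h, mul_zero]
  have h4 : (fun i => y i / y j) = (y j)⁻¹ • y := by
    funext i
    rw [Pi.smul_apply, smul_eq_mul, div_eq_inv_mul]
  rw [h2, h4, h3, map_zero, mul_zero]

lemma lf_div {N : ℕ} {H : MvPolynomial (Fin 2) Ω} (hH : H.IsHomogeneous (N + 1)) {y : Fin 2 → Ω}
    (hy : y ≠ 0) (h : eval y H = 0) : ∃ H' : MvPolynomial (Fin 2) Ω, H'.IsHomogeneous N ∧ H = H' * lf y := by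
  obtain ⟨G, hG⟩ := lf_dvd hH hy h
  refine ⟨homogeneousComponent N G, homogeneousComponent_isHomogeneous _ _, ?_⟩
  have h1 := Pool.Agent.Q170.HG.hc_mul G (lf y) (lf_hom y) (k := N + 1) (by omega)
  rw [Nat.add_sub_cancel] at h1
  rw [← h1, mul_comm G, ← hG, homogeneousComponent_eq_self hH]

theorem cop (M : ℕ) : ∀ p : Fin 2 → MvPolynomial (Fin 2) Ω, (∀ i, (p i).IsHomogeneous M) →
    ¬ (p 0 = 0 ∧ p 1 = 0) → ∃ (M' : ℕ) (h : MvPolynomial (Fin 2) Ω) (p' : Fin 2 → MvPolynomial (Fin 2) Ω),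
      (∀ i, (p' i).IsHomogeneous M') ∧ (∀ i, p i = h * p' i) ∧
        ∀ x : Fin 2 → Ω, (∀ i, eval x (p' i) = 0) → x = 0 := by
  induction M with
  | zero =>
    intro p hp hne
    refine ⟨0, 1, p, hp, fun i => (one_mul _).symm, fun x hx => ?_⟩
    exfalso
    apply hne
    have h1 : ∀ i, p i = 0 := by
      intro i
      have h2 := hx i
      have h3 : p i = C (coeff 0 (p i)) :=
        totalDegree_eq_zero_iff_eq_C.1 (Nat.le_zero.1 (hp i).totalDegree_le)
      rw [h3, eval_C] at h2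
      rw [h3, h2, C_0]
    exact ⟨h1 0, h1 1⟩
  | succ M ih =>
    intro p hp hne
    by_cases hreg : ∀ x : Fin 2 → Ω, (∀ i, eval x (p i) = 0) → x = 0
    · exact ⟨M + 1, 1, p, hp, fun i => (one_mul _).symm, hreg⟩
    · push Not at hreg
      obtain ⟨y, hy, hy0⟩ := hreg
      choose p' hp' hpp using fun i => lf_div (hp i) hy0 (hy i)
      obtain ⟨M', h, p'', h1, h2, h3⟩ := ih p' hp' (by
        rintro ⟨e0, e1⟩
        apply hne
        rw [hpp 0, hpp 1, e0, e1, zero_mul]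
        exact ⟨rfl, rfl⟩)
      refine ⟨M', h * lf y, p'', h1, fun i => ?_, h3⟩
      rw [hpp i, h2 i]
      ring

end coprime

section A

variable {Ω : Type} [Field Ω] [CharZero Ω] [IsAlgClosed Ω]

theorem bnd_any {d D M : ℕ} (hd : 2 ≤ d)
    {F c p : Fin 2 → MvPolynomial (Fin 2) Ω} (hF : ∀ i, (F i).IsHomogeneous d)
    (hc : ∀ i, (c i).IsHomogeneous D) (hp : ∀ i, (p i).IsHomogeneous M)
    (hF0 : ∀ x : Fin 2 → Ω, x ≠ 0 → ev F x ≠ 0) (hc0 : ∀ x : Fin 2 → Ω, x ≠ 0 → ev c x ≠ 0)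
    (hpne : ¬ (p 0 = 0 ∧ p 1 = 0)) (a : ℕ → Ω)
    (ha : (∃ l : Ω, l ≠ 0 ∧ (∀ n : ℕ, 0 < n → l ^ n ≠ 1) ∧ ∀ n, a n = l ^ n) ∨ ∀ n : ℕ, a n = n) :
    ∃ N : ℕ, ∀ n, N ≤ n → ∀ x : Fin 2 → Ω, x ≠ 0 → Same (ev c x) ((ev F)^[n] x) →
      algebraMap Ω Ω (a n) * ev p x 0 = ev p x 1 → ev p x 0 = 0 := by
  have hreg : ∀ {G : Fin 2 → MvPolynomial (Fin 2) Ω}, (∀ x : Fin 2 → Ω, x ≠ 0 → ev G x ≠ 0) →
      ∀ x : Fin 2 → Ω, (∀ i, eval x (G i) = 0) → x = 0 := by
    intro G h x hx
    by_contra hx0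
    apply h x hx0
    funext i
    show aeval x (G i) = 0
    rw [aeval_eq_eval]
    exact hx i
  obtain ⟨M', h, p', hp'h, hpp, hp'r⟩ := cop M p hp hpne
  obtain ⟨N, hN⟩ := bounded_any hd hF hc hp'h (hreg hF0) (hreg hc0) hp'r a ha
  refine ⟨N, fun n hn x hx hs hax => ?_⟩
  by_contra h0
  have e : ∀ i, ev p x i = aeval x h * ev p' x i := by
    intro i
    show aeval x (p i) = aeval x h * aeval x (p' i)
    rw [hpp i, map_mul]
  have hh : aeval x h ≠ 0 := by
    intro h1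
    apply h0
    rw [e, h1, zero_mul]
  apply hN n hn x hx hs
  rw [e, e] at hax
  apply mul_left_cancel₀ hh
  have h2 : algebraMap Ω Ω (a n) = a n := rfl
  rw [h2] at hax
  linear_combination hax

end A

section B

variable {K : Type} [Field K] {Ω : Type} [Field Ω] [IsAlgClosed Ω] [Algebra K Ω]

theorem main1A {d D : ℕ} (hd : 2 ≤ d) {F : Fin 2 → MvPolynomial (Fin 2) K}
    (hF : ∀ i, (F i).IsHomogeneous d) {c p : Fin 2 → MvPolynomial (Fin 2) K}
    (hc : ∀ i, (c i).IsHomogeneous D) (hp : ∀ i, (p i).IsHomogeneous (D + 1))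
    (hc0 : ∀ x : Fin 2 → Ω, x ≠ 0 → ev c x ≠ 0) (hF0 : ∀ x : Fin 2 → Ω, x ≠ 0 → ev F x ≠ 0)
    (hpne : ¬ (p 0 = 0 ∧ p 1 = 0)) (a : ℕ → K) (G : ℕ → (Fin 2 → Ω) → Fin 2 → Ω)
    (hS : ∀ n x, x ≠ 0 → (Same (ev c x) (G n x) ↔ algebraMap K Ω (a n) * ev p x 0 = ev p x 1))
    (ha : (∃ k, 0 < k ∧ ∀ n, a (n + k) = a n) ∨ ∃ N : ℕ, ∀ n, N ≤ n → ∀ x : Fin 2 → Ω, x ≠ 0 →
      Same (ev c x) ((ev F)^[n] x) → algebraMap K Ω (a n) * ev p x 0 = ev p x 1 → ev p x 0 = 0) :
    EvPer fun n => ∃ x : Fin 2 → Ω, x ≠ 0 ∧ Same (ev c x) ((ev F)^[n] x) ∧ Same (ev c x) (G n x) := by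
  have hsc : ∀ (b : Ω) (s : Ω) (x : Fin 2 → Ω), s ≠ 0 → b * ev p (s • x) 0 = ev p (s • x) 1 →
      b * ev p x 0 = ev p x 1 := by
    intro b s x hs h
    rw [ev_sm hp, Pi.smul_apply, Pi.smul_apply, smul_eq_mul, smul_eq_mul] at h
    apply mul_left_cancel₀ (pow_ne_zero (D + 1) hs)
    linear_combination h
  rcases ha with ⟨k, hk, hper⟩ | ⟨N, hN⟩
  · have hmod : ∀ n, a n = a (n % k) := by
      intro n
      have h1 : ∀ j m, a (m + k * j) = a m := by
        intro j
        induction j with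
        | zero => intro m; rw [mul_zero, add_zero]
        | succ j ih => intro m; rw [mul_add, mul_one, ← add_assoc, hper, ih]
      conv_lhs => rw [← Nat.mod_add_div n k]
      exact h1 _ _
    have h1 : ∀ r, EvPer fun n => ∃ x : Fin 2 → Ω, x ≠ 0 ∧ Same (ev c x) ((ev F)^[n] x) ∧
        algebraMap K Ω (a r) * ev p x 0 = ev p x 1 := by
      intro r
      have hPh : (C (a r) * p 0 - p 1).IsHomogeneous (D + 1) := by
        refine IsHomogeneous.sub ?_ (hp 1)
        have := (isHomogeneous_C (Fin 2) (a r)).mul (hp 0)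
        rwa [zero_add] at this
      have hval : ∀ x : Fin 2 → Ω, aeval x (C (a r) * p 0 - p 1) =
          algebraMap K Ω (a r) * ev p x 0 - ev p x 1 := by
        intro x
        rw [map_sub, map_mul, aeval_C]
        rfl
      by_cases hP : C (a r) * p 0 - p 1 = 0
      · refine evp_congr (evp_const True) 0 fun n _ => ?_
        refine ⟨fun _ => ?_, fun _ => trivial⟩
        obtain ⟨x, hx, h⟩ := sol (Ω := Ω) (by omega) hF hc n
        refine ⟨x, hx, h, ?_⟩
        have h2 := hval x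
        rw [hP, map_zero] at h2
        exact (sub_eq_zero.1 h2.symm)
      · exact fin_ex hF hF0 hc hc0 hPh hP (fun x => algebraMap K Ω (a r) * ev p x 0 = ev p x 1)
          (fun x _ h => by rw [hval, h, sub_self]) fun s x hs h => hsc _ s x hs h
    refine evp_congr (evp_class hk h1) 0 fun n _ => ?_
    show (∃ x : Fin 2 → Ω, x ≠ 0 ∧ Same (ev c x) ((ev F)^[n] x) ∧
        algebraMap K Ω (a (n % k)) * ev p x 0 = ev p x 1) ↔ _
    rw [← hmod n]
    constructor
    · rintro ⟨x, hx, h2, h3⟩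
      exact ⟨x, hx, h2, (hS n x hx).2 h3⟩
    · rintro ⟨x, hx, h2, h3⟩
      exact ⟨x, hx, h2, (hS n x hx).1 h3⟩
  · have hPex : ∃ P : MvPolynomial (Fin 2) K, P.IsHomogeneous (D + 1) ∧ P ≠ 0 ∧
        ∀ x : Fin 2 → Ω, (ev p x 0 = 0 ∧ ev p x 1 = 0) → aeval x P = 0 := by
      by_cases h0 : p 0 = 0
      · exact ⟨p 1, hp 1, fun h => hpne ⟨h0, h⟩, fun x h => h.2⟩
      · exact ⟨p 0, hp 0, h0, fun x h => h.1⟩
    obtain ⟨P, hPh, hP0, hPx⟩ := hPex
    have h1 := fin_ex hF hF0 hc hc0 hPh hP0 (fun x : Fin 2 → Ω => ev p x 0 = 0 ∧ ev p x 1 = 0)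
      (fun x _ h => hPx x h) fun s x hs h => by
        rw [ev_sm hp, Pi.smul_apply, Pi.smul_apply, smul_eq_mul, smul_eq_mul] at h
        exact ⟨(mul_eq_zero.1 h.1).resolve_left (pow_ne_zero _ hs),
          (mul_eq_zero.1 h.2).resolve_left (pow_ne_zero _ hs)⟩
    refine evp_congr h1 N fun n hn => ?_
    constructor
    · rintro ⟨x, hx, h2, h3, h4⟩
      exact ⟨x, hx, h2, (hS n x hx).2 (by rw [h3, h4, mul_zero])⟩
    · rintro ⟨x, hx, h2, h3⟩
      have h4 := (hS n x hx).1 h3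
      have h5 := hN n hn x hx h2 h4
      refine ⟨x, hx, h2, h5, ?_⟩
      rw [← h4, h5, mul_zero]

end B

section C

variable {Ω : Type} [Field Ω] [CharZero Ω] [IsAlgClosed Ω]

theorem main2A {d D : ℕ} (hd : 2 ≤ d) {F : Fin 2 → MvPolynomial (Fin 2) Ω}
    (hF : ∀ i, (F i).IsHomogeneous d) {c g : Fin 2 → MvPolynomial (Fin 2) Ω}
    (hc : ∀ i, (c i).IsHomogeneous D)
    (hc0 : ∀ x : Fin 2 → Ω, x ≠ 0 → ev c x ≠ 0) (hF0 : ∀ x : Fin 2 → Ω, x ≠ 0 → ev F x ≠ 0)
    (hg0 : ∀ x : Fin 2 → Ω, x ≠ 0 → ev g x ≠ 0) (u w : Fin 2 → Ω) (huw : dt u w ≠ 0) (μ ν κ : Ω)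
    (hu : ∀ x : Fin 2 → Ω, lv u (ev g x) = algebraMap Ω Ω μ * lv u x)
    (hw : ∀ x : Fin 2 → Ω, lv w (ev g x) = algebraMap Ω Ω ν * lv w x + algebraMap Ω Ω κ * lv u x) :
    EvPer fun n => ∃ x : Fin 2 → Ω, x ≠ 0 ∧ Same (ev c x) ((ev F)^[n] x) ∧
      Same (ev c x) ((ev g)^[n] x) := by
  have hν : ν ≠ 0 := by
    intro h
    obtain ⟨x, hx, h1, _⟩ := lv_ex (Ω := Ω) huw 0 1 (by simp)
    apply hg0 x hx
    apply lv_zero huw
    · rw [hu, h1, mul_zero]
    · rw [hw, h, h1, map_zero, zero_mul, mul_zero, add_zero]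
  have hμ : μ ≠ 0 := by
    intro h
    obtain ⟨x, hx, h1, h2⟩ := lv_ex (Ω := Ω) huw (algebraMap Ω Ω ν) (-algebraMap Ω Ω κ)
      (fun h => hν ((map_eq_zero _).1 h.1))
    apply hg0 x hx
    apply lv_zero huw
    · rw [hu, h, map_zero, zero_mul]
    · rw [hw, h1, h2]
      ring
  have hμ' : algebraMap Ω Ω μ ≠ 0 := (map_ne_zero _).2 hμ
  have hun : ∀ n (x : Fin 2 → Ω), lv u ((ev g)^[n] x) = algebraMap Ω Ω μ ^ n * lv u x := by
    intro n x
    induction n with
    | zero => rw [Function.iterate_zero_apply, pow_zero, one_mul]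
    | succ n ih => rw [Function.iterate_succ_apply', hu, ih]; ring
  -- the diagonal case
  have diag : ∀ w : Fin 2 → Ω, dt u w ≠ 0 →
      (∀ x : Fin 2 → Ω, lv w (ev g x) = algebraMap Ω Ω ν * lv w x) →
      EvPer fun n => ∃ x : Fin 2 → Ω, x ≠ 0 ∧ Same (ev c x) ((ev F)^[n] x) ∧
        Same (ev c x) ((ev g)^[n] x) := by
    intro w huw hw
    have hwn : ∀ n (x : Fin 2 → Ω), lv w ((ev g)^[n] x) = algebraMap Ω Ω ν ^ n * lv w x := by
      intro n x
      induction n with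
      | zero => rw [Function.iterate_zero_apply, pow_zero, one_mul]
      | succ n ih => rw [Function.iterate_succ_apply', hw, ih]; ring
    obtain ⟨hX1, hX2⟩ := ln_ne huw
    refine main1A (p := ![ln w X * ln u c, ln u X * ln w c]) hd hF hc ?_ hc0 hF0 ?_ (fun n => (ν / μ) ^ n)
      (fun n => (ev g)^[n]) ?_ ?_
    · have hXh : ∀ i, (X i : MvPolynomial (Fin 2) Ω).IsHomogeneous 1 := isHomogeneous_X Ω
      intro i
      fin_cases i
      · have := (ln_hom hXh w).mul (ln_hom hc u)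
        rwa [add_comm] at this
      · have := (ln_hom hXh u).mul (ln_hom hc w)
        rwa [add_comm] at this
    · rintro ⟨h1, h2⟩
      exact ln_c huw hc0 ⟨(mul_eq_zero.1 h1).resolve_left hX2, (mul_eq_zero.1 h2).resolve_left hX1⟩
    · intro n x _
      have e0 : ev (![ln w X * ln u c, ln u X * ln w c] : Fin 2 → MvPolynomial (Fin 2) Ω) x 0 =
          lv w x * lv u (ev c x) := by
        show aeval x (ln w X * ln u c) = _
        rw [map_mul, ln_X, ln_ev]
      have e1 : ev (![ln w X * ln u c, ln u X * ln w c] : Fin 2 → MvPolynomial (Fin 2) Ω) x 1 =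
          lv u x * lv w (ev c x) := by
        show aeval x (ln u X * ln w c) = _
        rw [map_mul, ln_X, ln_ev]
      rw [e0, e1, same_lv huw, hun, hwn, map_pow, map_div₀, div_pow, div_mul_eq_mul_div,
        div_eq_iff (pow_ne_zero n hμ')]
      constructor
      · intro h
        linear_combination h
      · intro h
        linear_combination h
    · have hl : ν / μ ≠ 0 := div_ne_zero hν hμ
      by_cases hr : ∃ k : ℕ, 0 < k ∧ (ν / μ) ^ k = 1
      · obtain ⟨k, hk, h⟩ := hr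
        exact Or.inl ⟨k, hk, fun n => by rw [pow_add, h, mul_one]⟩
      · push Not at hr
        refine Or.inr (bnd_any (M := 1 + D) hd hF hc ?_ hF0 hc0 ?_ _ (Or.inl ⟨ν / μ, hl, hr, fun _ => rfl⟩))
        · have hXh : ∀ i, (X i : MvPolynomial (Fin 2) Ω).IsHomogeneous 1 := isHomogeneous_X Ω
          intro i
          fin_cases i
          · exact (ln_hom hXh w).mul (ln_hom hc u)
          · exact (ln_hom hXh u).mul (ln_hom hc w)
        · rintro ⟨h1, h2⟩
          exact ln_c huw hc0 ⟨(mul_eq_zero.1 h1).resolve_left hX2, (mul_eq_zero.1 h2).resolve_left hX1⟩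
  by_cases hk : κ = 0
  · exact diag w huw fun x => by rw [hw, hk, map_zero, zero_mul, add_zero]
  by_cases hνμ : ν = μ
  · -- the parabolic case
    subst hνμ
    set u' : Fin 2 → Ω := fun i => κ / ν * u i with hu'
    have hlu : ∀ x : Fin 2 → Ω, lv u' x = algebraMap Ω Ω (κ / ν) * lv u x := by
      intro x
      simp only [lv, hu', map_mul]
      ring
    have huw' : dt u' w ≠ 0 := by
      have : dt u' w = κ / ν * dt u w := by
        simp only [dt, hu']
        ring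
      rw [this]
      exact mul_ne_zero (div_ne_zero hk hν) huw
    have hun' : ∀ n (x : Fin 2 → Ω), lv u' ((ev g)^[n] x) = algebraMap Ω Ω ν ^ n * lv u' x := by
      intro n x
      rw [hlu, hun, hlu]
      ring
    have hw' : ∀ x : Fin 2 → Ω, lv w (ev g x) = algebraMap Ω Ω ν * (lv w x + lv u' x) := by
      intro x
      rw [hw, hlu, map_div₀]
      field_simp
    have hwn : ∀ n (x : Fin 2 → Ω), lv w ((ev g)^[n] x) =
        algebraMap Ω Ω ν ^ n * (lv w x + n * lv u' x) := by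
      intro n x
      induction n with
      | zero => rw [Function.iterate_zero_apply, pow_zero, one_mul, Nat.cast_zero, zero_mul, add_zero]
      | succ n ih =>
        rw [Function.iterate_succ_apply', hw', ih, hun']
        push_cast
        ring
    obtain ⟨hX1, hX2⟩ := ln_ne huw'
    refine main1A (p := ![ln u' X * ln u' c, ln u' X * ln w c - ln w X * ln u' c]) hd hF hc ?_ hc0 hF0 ?_
      (fun n => (n : Ω)) (fun n => (ev g)^[n]) ?_ ?_
    · have hXh : ∀ i, (X i : MvPolynomial (Fin 2) Ω).IsHomogeneous 1 := isHomogeneous_X Ω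
      intro i
      fin_cases i
      · have := (ln_hom hXh u').mul (ln_hom hc u')
        rwa [add_comm] at this
      · have h1 := (ln_hom hXh u').mul (ln_hom hc w)
        have h2 := (ln_hom hXh w).mul (ln_hom hc u')
        rw [add_comm] at h1 h2
        exact h1.sub h2
    · rintro ⟨h1, h2⟩
      have h3 : ln u' c = 0 := (mul_eq_zero.1 h1).resolve_left hX1
      have h4 : ln u' X * ln w c - ln w X * ln u' c = 0 := h2
      rw [h3, mul_zero, sub_zero] at h4
      exact ln_c huw' hc0 ⟨h3, (mul_eq_zero.1 h4).resolve_left hX1⟩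
    · intro n x _
      have e0 : ev (![ln u' X * ln u' c, ln u' X * ln w c - ln w X * ln u' c] :
          Fin 2 → MvPolynomial (Fin 2) Ω) x 0 = lv u' x * lv u' (ev c x) := by
        show aeval x (ln u' X * ln u' c) = _
        rw [map_mul, ln_X, ln_ev]
      have e1 : ev (![ln u' X * ln u' c, ln u' X * ln w c - ln w X * ln u' c] :
          Fin 2 → MvPolynomial (Fin 2) Ω) x 1 = lv u' x * lv w (ev c x) - lv w x * lv u' (ev c x) := by
        show aeval x (ln u' X * ln w c - ln w X * ln u' c) = _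
        rw [map_sub, map_mul, map_mul, ln_X, ln_X, ln_ev, ln_ev]
      rw [e0, e1, same_lv huw', hun', hwn, map_natCast]
      have hνn : algebraMap Ω Ω ν ^ n ≠ 0 := pow_ne_zero n hμ'
      constructor
      · intro h
        apply mul_left_cancel₀ hνn
        linear_combination h
      · intro h
        linear_combination algebraMap Ω Ω ν ^ n * h
    · refine Or.inr (bnd_any (M := 1 + D) hd hF hc ?_ hF0 hc0 ?_ _ (Or.inr fun _ => rfl))
      · have hXh : ∀ i, (X i : MvPolynomial (Fin 2) Ω).IsHomogeneous 1 := isHomogeneous_X Ω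
        intro i
        fin_cases i
        · exact (ln_hom hXh u').mul (ln_hom hc u')
        · exact ((ln_hom hXh u').mul (ln_hom hc w)).sub ((ln_hom hXh w).mul (ln_hom hc u'))
      · rintro ⟨h1, h2⟩
        have h3 : ln u' c = 0 := (mul_eq_zero.1 h1).resolve_left hX1
        have h4 : ln u' X * ln w c - ln w X * ln u' c = 0 := h2
        rw [h3, mul_zero, sub_zero] at h4
        exact ln_c huw' hc0 ⟨h3, (mul_eq_zero.1 h4).resolve_left hX1⟩
  · have hsub : ν - μ ≠ 0 := sub_ne_zero.2 hνμ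
    refine diag (fun i => w i + κ / (ν - μ) * u i) ?_ ?_
    · have : dt u (fun i => w i + κ / (ν - μ) * u i) = dt u w := by
        simp only [dt]
        ring
      rwa [this]
    · intro x
      have h1 : ∀ x : Fin 2 → Ω, lv (fun i => w i + κ / (ν - μ) * u i) x =
          lv w x + algebraMap Ω Ω (κ / (ν - μ)) * lv u x := by
        intro x
        simp only [lv, map_add, map_mul]
        ring
      have h2 : algebraMap Ω Ω κ = algebraMap Ω Ω (κ / (ν - μ)) * (algebraMap Ω Ω ν - algebraMap Ω Ω μ) := by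
        rw [← map_sub, ← map_mul]
        congr 1
        field_simp
      rw [h1, h1, hu, hw, h2]
      ring

end C

end Pool.Agent.H422.RS
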