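import Mathlib
import Pool.Agent.H422.RS.Any

set_option autoImplicit false

/-!
Möbius transformations over algebraically closed fields of characteristic zero.
-/

namespace Pool.Agent.H422.RS

open MvPolynomial
open Pool.Agent.H422.SK (EvPer)

variable {Ω : Type} [Field Ω] [CharZero Ω] [IsAlgClosed Ω]

theorem main3A {d D : ℕ} (hd : 2 ≤ d) {F c g : Fin 2 → MvPolynomial (Fin 2) Ω}
    (hF : ∀ i, (F i).IsHomogeneous d) (hc : ∀ i, (c i).IsHomogeneous D) (hg : ∀ i, (g i).IsHomogeneous 1)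
    (hF0 : ∀ x : Fin 2 → Ω, x ≠ 0 → ev F x ≠ 0) (hc0 : ∀ x : Fin 2 → Ω, x ≠ 0 → ev c x ≠ 0)
    (hg0 : ∀ x : Fin 2 → Ω, x ≠ 0 → ev g x ≠ 0) :
    EvPer fun n => ∃ x : Fin 2 → Ω, x ≠ 0 ∧ Same (ev c x) ((ev F)^[n] x) ∧
      Same (ev c x) ((ev g)^[n] x) := by
  obtain ⟨a0, b0, h0⟩ := lin_form (hg 0)
  obtain ⟨a1, b1, h1⟩ := lin_form (hg 1)
  have hev0 : ∀ x : Fin 2 → Ω, ev g x 0 = algebraMap Ω Ω a0 * x 0 + algebraMap Ω Ω b0 * x 1 := by
    intro x
    show aeval x (g 0) = _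
    rw [h0, map_add, map_mul, map_mul, aeval_C, aeval_C, aeval_X, aeval_X]
  have hev1 : ∀ x : Fin 2 → Ω, ev g x 1 = algebraMap Ω Ω a1 * x 0 + algebraMap Ω Ω b1 * x 1 := by
    intro x
    show aeval x (g 1) = _
    rw [h1, map_add, map_mul, map_mul, aeval_C, aeval_C, aeval_X, aeval_X]
  by_cases ha1 : a1 = 0
  · refine main2A hd hF hc hc0 hF0 hg0 ![0, 1] ![1, 0] ?_ b1 a0 b0 (fun x => ?_) fun x => ?_
    · simp [dt]
    · simp only [lv, Matrix.cons_val_zero, Matrix.cons_val_one, map_zero, map_one]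
      rw [hev1, ha1, map_zero]
      ring
    · simp only [lv, Matrix.cons_val_zero, Matrix.cons_val_one, map_zero, map_one]
      rw [hev0]
      ring
  · obtain ⟨s, hs⟩ := IsAlgClosed.exists_pow_nat_eq
      ((a0 + b1) ^ 2 - 4 * (a0 * b1 - b0 * a1)) (n := 2) two_pos
    have h2 : (2 : Ω) ≠ 0 := two_ne_zero
    set μ : Ω := (a0 + b1 + s) / 2 with hμ
    have hquad : (a0 - μ) * (b1 - μ) = b0 * a1 := by
      rw [hμ]
      field_simp
      linear_combination hs
    refine main2A hd hF hc hc0 hF0 hg0 ![a1, μ - a0] ![0, 1] ?_ μ (a0 + b1 - μ) 1 (fun x => ?_)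
      fun x => ?_
    · simp only [dt, Matrix.cons_val_zero, Matrix.cons_val_one, mul_one, mul_zero, sub_zero]
      exact ha1
    · simp only [lv, Matrix.cons_val_zero, Matrix.cons_val_one]
      rw [hev0, hev1]
      simp only [Algebra.algebraMap_self, RingHom.id_apply]
      linear_combination (-x 1) * hquad
    · simp only [lv, Matrix.cons_val_zero, Matrix.cons_val_one]
      rw [hev1]
      simp only [Algebra.algebraMap_self, RingHom.id_apply]
      ring

end Pool.Agent.H422.RS
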