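import Mathlib
import Pool.Agent.H422.RS.Any3

set_option autoImplicit false

/-!
Möbius transformations of infinite order: the solutions for large `n`.
-/

namespace Pool.Agent.H422.RS

open MvPolynomial
open Pool.Agent.H422.SK (EvPer)

variable {Ω : Type} [Field Ω]

lemma main1B {F c p : Fin 2 → MvPolynomial (Fin 2) Ω} {P : Prop} (a : ℕ → Ω)
    (G : ℕ → (Fin 2 → Ω) → Fin 2 → Ω)
    (hS : ∀ n x, x ≠ 0 → (Same (ev c x) (G n x) ↔ algebraMap Ω Ω (a n) * ev p x 0 = ev p x 1))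
    (ha : P ∨ ∃ N : ℕ, ∀ n, N ≤ n → ∀ x : Fin 2 → Ω, x ≠ 0 →
      Same (ev c x) ((ev F)^[n] x) → algebraMap Ω Ω (a n) * ev p x 0 = ev p x 1 → ev p x 0 = 0) :
    P ∨ ∃ N : ℕ, ∀ n, N ≤ n → ∀ x : Fin 2 → Ω, x ≠ 0 → Same (ev c x) ((ev F)^[n] x) →
      Same (ev c x) (G n x) → ∀ m : ℕ, Same (ev c x) (G m x) := by
  rcases ha with h | ⟨N, hN⟩
  · exact Or.inl h
  · refine Or.inr ⟨N, fun n hn x hx h1 h2 m => ?_⟩
    have h3 := (hS n x hx).1 h2
    have h4 := hN n hn x hx h1 h3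
    have h5 : ev p x 1 = 0 := by rw [← h3, h4, mul_zero]
    rw [hS m x hx, h4, h5, mul_zero]

variable [CharZero Ω] [IsAlgClosed Ω]

theorem main2B {d D : ℕ} (hd : 2 ≤ d) {F : Fin 2 → MvPolynomial (Fin 2) Ω}
    (hF : ∀ i, (F i).IsHomogeneous d) {c g : Fin 2 → MvPolynomial (Fin 2) Ω}
    (hc : ∀ i, (c i).IsHomogeneous D)
    (hc0 : ∀ x : Fin 2 → Ω, x ≠ 0 → ev c x ≠ 0) (hF0 : ∀ x : Fin 2 → Ω, x ≠ 0 → ev F x ≠ 0)
    (hg0 : ∀ x : Fin 2 → Ω, x ≠ 0 → ev g x ≠ 0) (u w : Fin 2 → Ω) (huw : dt u w ≠ 0) (μ ν κ : Ω)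
    (hu : ∀ x : Fin 2 → Ω, lv u (ev g x) = algebraMap Ω Ω μ * lv u x)
    (hw : ∀ x : Fin 2 → Ω, lv w (ev g x) = algebraMap Ω Ω ν * lv w x + algebraMap Ω Ω κ * lv u x) :
    (∃ k : ℕ, 0 < k ∧ ∀ x : Fin 2 → Ω, Same ((ev g)^[k] x) x) ∨ ∃ N : ℕ, ∀ n, N ≤ n →
      ∀ x : Fin 2 → Ω, x ≠ 0 → Same (ev c x) ((ev F)^[n] x) → Same (ev c x) ((ev g)^[n] x) →
        ∀ m : ℕ, Same (ev c x) ((ev g)^[m] x) := by
  have hν : ν ≠ 0 := by
    intro h
    obtain ⟨x, hx, h1, _⟩ := lv_ex (Ω := Ω) huw 0 1 (by simp)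
    apply hg0 x hx
    apply lv_zero huw
    · rw [hu, h1, mul_zero]
    · rw [hw, h, h1, map_zero, zero_mul, mul_zero, add_zero]
  have hμ : μ ≠ 0 := by
    intro h
    obtain ⟨x, hx, h1, h2⟩ := lv_ex (Ω := Ω) huw (algebraMap Ω Ω ν) (-algebraMap Ω Ω κ)
      (fun h => hν ((map_eq_zero _).1 h.1))
    apply hg0 x hx
    apply lv_zero huw
    · rw [hu, h, map_zero, zero_mul]
    · rw [hw, h1, h2]
      ring
  have hμ' : algebraMap Ω Ω μ ≠ 0 := (map_ne_zero _).2 hμ
  have hun : ∀ n (x : Fin 2 → Ω), lv u ((ev g)^[n] x) = algebraMap Ω Ω μ ^ n * lv u x := by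
    intro n x
    induction n with
    | zero => rw [Function.iterate_zero_apply, pow_zero, one_mul]
    | succ n ih => rw [Function.iterate_succ_apply', hu, ih]; ring
  -- the diagonal case
  have diag : ∀ w : Fin 2 → Ω, dt u w ≠ 0 →
      (∀ x : Fin 2 → Ω, lv w (ev g x) = algebraMap Ω Ω ν * lv w x) →
      ((∃ k : ℕ, 0 < k ∧ ∀ x : Fin 2 → Ω, Same ((ev g)^[k] x) x) ∨ ∃ N : ℕ, ∀ n, N ≤ n →
      ∀ x : Fin 2 → Ω, x ≠ 0 → Same (ev c x) ((ev F)^[n] x) → Same (ev c x) ((ev g)^[n] x) →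
        ∀ m : ℕ, Same (ev c x) ((ev g)^[m] x)) := by
    intro w huw hw
    have hwn : ∀ n (x : Fin 2 → Ω), lv w ((ev g)^[n] x) = algebraMap Ω Ω ν ^ n * lv w x := by
      intro n x
      induction n with
      | zero => rw [Function.iterate_zero_apply, pow_zero, one_mul]
      | succ n ih => rw [Function.iterate_succ_apply', hw, ih]; ring
    obtain ⟨hX1, hX2⟩ := ln_ne huw
    refine main1B (p := ![ln w X * ln u c, ln u X * ln w c]) (fun n => (ν / μ) ^ n)
      (fun n => (ev g)^[n]) ?_ ?_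
    · intro n x _
      have e0 : ev (![ln w X * ln u c, ln u X * ln w c] : Fin 2 → MvPolynomial (Fin 2) Ω) x 0 =
          lv w x * lv u (ev c x) := by
        show aeval x (ln w X * ln u c) = _
        rw [map_mul, ln_X, ln_ev]
      have e1 : ev (![ln w X * ln u c, ln u X * ln w c] : Fin 2 → MvPolynomial (Fin 2) Ω) x 1 =
          lv u x * lv w (ev c x) := by
        show aeval x (ln u X * ln w c) = _
        rw [map_mul, ln_X, ln_ev]
      rw [e0, e1, same_lv huw, hun, hwn, map_pow, map_div₀, div_pow, div_mul_eq_mul_div,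
        div_eq_iff (pow_ne_zero n hμ')]
      constructor
      · intro h
        linear_combination h
      · intro h
        linear_combination h
    · have hl : ν / μ ≠ 0 := div_ne_zero hν hμ
      by_cases hr : ∃ k : ℕ, 0 < k ∧ (ν / μ) ^ k = 1
      · obtain ⟨k, hk, h⟩ := hr
        refine Or.inl ⟨k, hk, fun x => ?_⟩
        have h1 : ν ^ k = μ ^ k := by
          rw [div_pow, div_eq_one_iff_eq (pow_ne_zero k hμ)] at h
          exact h
        have h2 : algebraMap Ω Ω ν ^ k = algebraMap Ω Ω μ ^ k := h1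
        rw [same_lv huw, hun, hwn, h2]
        ring
      · push Not at hr
        refine Or.inr (bnd_any (M := 1 + D) hd hF hc ?_ hF0 hc0 ?_ _ (Or.inl ⟨ν / μ, hl, hr, fun _ => rfl⟩))
        · have hXh : ∀ i, (X i : MvPolynomial (Fin 2) Ω).IsHomogeneous 1 := isHomogeneous_X Ω
          intro i
          fin_cases i
          · exact (ln_hom hXh w).mul (ln_hom hc u)
          · exact (ln_hom hXh u).mul (ln_hom hc w)
        · rintro ⟨h1, h2⟩
          exact ln_c huw hc0 ⟨(mul_eq_zero.1 h1).resolve_left hX2, (mul_eq_zero.1 h2).resolve_left hX1⟩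
  by_cases hk : κ = 0
  · exact diag w huw fun x => by rw [hw, hk, map_zero, zero_mul, add_zero]
  by_cases hνμ : ν = μ
  · -- the parabolic case
    subst hνμ
    set u' : Fin 2 → Ω := fun i => κ / ν * u i with hu'
    have hlu : ∀ x : Fin 2 → Ω, lv u' x = algebraMap Ω Ω (κ / ν) * lv u x := by
      intro x
      simp only [lv, hu', map_mul]
      ring
    have huw' : dt u' w ≠ 0 := by
      have : dt u' w = κ / ν * dt u w := by
        simp only [dt, hu']
        ring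
      rw [this]
      exact mul_ne_zero (div_ne_zero hk hν) huw
    have hun' : ∀ n (x : Fin 2 → Ω), lv u' ((ev g)^[n] x) = algebraMap Ω Ω ν ^ n * lv u' x := by
      intro n x
      rw [hlu, hun, hlu]
      ring
    have hw' : ∀ x : Fin 2 → Ω, lv w (ev g x) = algebraMap Ω Ω ν * (lv w x + lv u' x) := by
      intro x
      rw [hw, hlu, map_div₀]
      field_simp
    have hwn : ∀ n (x : Fin 2 → Ω), lv w ((ev g)^[n] x) =
        algebraMap Ω Ω ν ^ n * (lv w x + n * lv u' x) := by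
      intro n x
      induction n with
      | zero => rw [Function.iterate_zero_apply, pow_zero, one_mul, Nat.cast_zero, zero_mul, add_zero]
      | succ n ih =>
        rw [Function.iterate_succ_apply', hw', ih, hun']
        push_cast
        ring
    obtain ⟨hX1, hX2⟩ := ln_ne huw'
    refine main1B (p := ![ln u' X * ln u' c, ln u' X * ln w c - ln w X * ln u' c]) (fun n => (n : Ω))
      (fun n => (ev g)^[n]) ?_ ?_
    · intro n x _
      have e0 : ev (![ln u' X * ln u' c, ln u' X * ln w c - ln w X * ln u' c] :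
          Fin 2 → MvPolynomial (Fin 2) Ω) x 0 = lv u' x * lv u' (ev c x) := by
        show aeval x (ln u' X * ln u' c) = _
        rw [map_mul, ln_X, ln_ev]
      have e1 : ev (![ln u' X * ln u' c, ln u' X * ln w c - ln w X * ln u' c] :
          Fin 2 → MvPolynomial (Fin 2) Ω) x 1 = lv u' x * lv w (ev c x) - lv w x * lv u' (ev c x) := by
        show aeval x (ln u' X * ln w c - ln w X * ln u' c) = _
        rw [map_sub, map_mul, map_mul, ln_X, ln_X, ln_ev, ln_ev]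
      rw [e0, e1, same_lv huw', hun', hwn, map_natCast]
      have hνn : algebraMap Ω Ω ν ^ n ≠ 0 := pow_ne_zero n hμ'
      constructor
      · intro h
        apply mul_left_cancel₀ hνn
        linear_combination h
      · intro h
        linear_combination algebraMap Ω Ω ν ^ n * h
    · refine Or.inr (bnd_any (M := 1 + D) hd hF hc ?_ hF0 hc0 ?_ _ (Or.inr fun _ => rfl))
      · have hXh : ∀ i, (X i : MvPolynomial (Fin 2) Ω).IsHomogeneous 1 := isHomogeneous_X Ω
        intro i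
        fin_cases i
        · exact (ln_hom hXh u').mul (ln_hom hc u')
        · exact ((ln_hom hXh u').mul (ln_hom hc w)).sub ((ln_hom hXh w).mul (ln_hom hc u'))
      · rintro ⟨h1, h2⟩
        have h3 : ln u' c = 0 := (mul_eq_zero.1 h1).resolve_left hX1
        have h4 : ln u' X * ln w c - ln w X * ln u' c = 0 := h2
        rw [h3, mul_zero, sub_zero] at h4
        exact ln_c huw' hc0 ⟨h3, (mul_eq_zero.1 h4).resolve_left hX1⟩
  · have hsub : ν - μ ≠ 0 := sub_ne_zero.2 hνμ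
    refine diag (fun i => w i + κ / (ν - μ) * u i) ?_ ?_
    · have : dt u (fun i => w i + κ / (ν - μ) * u i) = dt u w := by
        simp only [dt]
        ring
      rwa [this]
    · intro x
      have h1 : ∀ x : Fin 2 → Ω, lv (fun i => w i + κ / (ν - μ) * u i) x =
          lv w x + algebraMap Ω Ω (κ / (ν - μ)) * lv u x := by
        intro x
        simp only [lv, map_add, map_mul]
        ring
      have h2 : algebraMap Ω Ω κ = algebraMap Ω Ω (κ / (ν - μ)) * (algebraMap Ω Ω ν - algebraMap Ω Ω μ) := by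
        rw [← map_sub, ← map_mul]
        congr 1
        field_simp
      rw [h1, h1, hu, hw, h2]
      ring


theorem main3B {d D : ℕ} (hd : 2 ≤ d) {F c g : Fin 2 → MvPolynomial (Fin 2) Ω}
    (hF : ∀ i, (F i).IsHomogeneous d) (hc : ∀ i, (c i).IsHomogeneous D) (hg : ∀ i, (g i).IsHomogeneous 1)
    (hF0 : ∀ x : Fin 2 → Ω, x ≠ 0 → ev F x ≠ 0) (hc0 : ∀ x : Fin 2 → Ω, x ≠ 0 → ev c x ≠ 0)
    (hg0 : ∀ x : Fin 2 → Ω, x ≠ 0 → ev g x ≠ 0) :
    (∃ k : ℕ, 0 < k ∧ ∀ x : Fin 2 → Ω, Same ((ev g)^[k] x) x) ∨ ∃ N : ℕ, ∀ n, N ≤ n →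
      ∀ x : Fin 2 → Ω, x ≠ 0 → Same (ev c x) ((ev F)^[n] x) → Same (ev c x) ((ev g)^[n] x) →
        ∀ m : ℕ, Same (ev c x) ((ev g)^[m] x) := by
  obtain ⟨a0, b0, h0⟩ := lin_form (hg 0)
  obtain ⟨a1, b1, h1⟩ := lin_form (hg 1)
  have hev0 : ∀ x : Fin 2 → Ω, ev g x 0 = algebraMap Ω Ω a0 * x 0 + algebraMap Ω Ω b0 * x 1 := by
    intro x
    show aeval x (g 0) = _
    rw [h0, map_add, map_mul, map_mul, aeval_C, aeval_C, aeval_X, aeval_X]
  have hev1 : ∀ x : Fin 2 → Ω, ev g x 1 = algebraMap Ω Ω a1 * x 0 + algebraMap Ω Ω b1 * x 1 := by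
    intro x
    show aeval x (g 1) = _
    rw [h1, map_add, map_mul, map_mul, aeval_C, aeval_C, aeval_X, aeval_X]
  by_cases ha1 : a1 = 0
  · refine main2B hd hF hc hc0 hF0 hg0 ![0, 1] ![1, 0] ?_ b1 a0 b0 (fun x => ?_) fun x => ?_
    · simp [dt]
    · simp only [lv, Matrix.cons_val_zero, Matrix.cons_val_one, map_zero, map_one]
      rw [hev1, ha1, map_zero]
      ring
    · simp only [lv, Matrix.cons_val_zero, Matrix.cons_val_one, map_zero, map_one]
      rw [hev0]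
      ring
  · obtain ⟨s, hs⟩ := IsAlgClosed.exists_pow_nat_eq
      ((a0 + b1) ^ 2 - 4 * (a0 * b1 - b0 * a1)) (n := 2) two_pos
    have h2 : (2 : Ω) ≠ 0 := two_ne_zero
    set μ : Ω := (a0 + b1 + s) / 2 with hμ
    have hquad : (a0 - μ) * (b1 - μ) = b0 * a1 := by
      rw [hμ]
      field_simp
      linear_combination hs
    refine main2B hd hF hc hc0 hF0 hg0 ![a1, μ - a0] ![0, 1] ?_ μ (a0 + b1 - μ) 1 (fun x => ?_)
      fun x => ?_
    · simp only [dt, Matrix.cons_val_zero, Matrix.cons_val_one, mul_one, mul_zero, sub_zero]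
      exact ha1
    · simp only [lv, Matrix.cons_val_zero, Matrix.cons_val_one]
      rw [hev0, hev1]
      simp only [Algebra.algebraMap_self, RingHom.id_apply]
      linear_combination (-x 1) * hquad
    · simp only [lv, Matrix.cons_val_zero, Matrix.cons_val_one]
      rw [hev1]
      simp only [Algebra.algebraMap_self, RingHom.id_apply]
      ring


lemma same_trans {u v w : Fin 2 → Ω} (hu : u ≠ 0) (h1 : Same u v) (h2 : Same u w) : Same v w := by
  unfold Same at *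
  obtain ⟨i, hi⟩ : ∃ i, u i ≠ 0 := by
    by_contra hno
    push Not at hno
    exact hu (funext hno)
  apply mul_left_cancel₀ hi
  fin_cases i
  · show u 0 * _ = u 0 * _
    linear_combination v 0 * h2 - w 0 * h1
  · show u 1 * _ = u 1 * _
    linear_combination v 1 * h2 - w 1 * h1

theorem large {d D : ℕ} (hd : 2 ≤ d) {F c g : Fin 2 → MvPolynomial (Fin 2) Ω}
    (hF : ∀ i, (F i).IsHomogeneous d) (hc : ∀ i, (c i).IsHomogeneous D) (hg : ∀ i, (g i).IsHomogeneous 1)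
    (hF0 : ∀ x : Fin 2 → Ω, x ≠ 0 → ev F x ≠ 0) (hc0 : ∀ x : Fin 2 → Ω, x ≠ 0 → ev c x ≠ 0)
    (hg0 : ∀ x : Fin 2 → Ω, x ≠ 0 → ev g x ≠ 0)
    (hinf : ∀ k : ℕ, 0 < k → ∃ x : Fin 2 → Ω, ¬ Same ((ev g)^[k] x) x) :
    ∃ N : ℕ, ∀ n, N ≤ n → ∀ x : Fin 2 → Ω, x ≠ 0 → Same (ev c x) ((ev F)^[n] x) →
      Same (ev c x) ((ev g)^[n] x) → Same (ev g x) x ∧ Same (ev c x) x := by
  rcases main3B hd hF hc hg hF0 hc0 hg0 with ⟨k, hk, h⟩ | ⟨N, hN⟩
  · obtain ⟨x, hx⟩ := hinf k hk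
    exact absurd (h x) hx
  · refine ⟨N, fun n hn x hx h1 h2 => ?_⟩
    have h3 := hN n hn x hx h1 h2
    exact ⟨same_trans (hc0 x hx) (h3 1) (h3 0), h3 0⟩

end Pool.Agent.H422.RS
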